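import Mathlib

open Set Real

namespace Pool.Agent.Lib.MP_e11f15_gt

theorem cov : IsCoveringMap (fun r : ℝ => (r : Angle)) := AddCircle.isCoveringMap_coe (2 * π)

def Lifts {X : Type*} [TopologicalSpace X] (G : X → ℝ) (F : X → Angle) (S : Set X) : Prop :=
  ContinuousOn G S ∧ ∀ x ∈ S, (G x : Angle) = F x

theorem Lifts.mono {X : Type*} [TopologicalSpace X] {G : X → ℝ} {F : X → Angle} {S T : Set X}
    (h : Lifts G F S) (hT : T ⊆ S) : Lifts G F T := ⟨h.1.mono hT, fun x hx => h.2 x (hT hx)⟩

theorem Lifts.continuousOn {X : Type*} [TopologicalSpace X] {G : X → ℝ} {F : X → Angle}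
    {S : Set X} (h : Lifts G F S) : ContinuousOn F S :=
  (Angle.continuous_coe.comp_continuousOn h.1).congr fun x hx => (h.2 x hx).symm

theorem Lifts.eqOn {X : Type*} [TopologicalSpace X] {G G' : X → ℝ} {F : X → Angle} {S : Set X}
    (h : Lifts G F S) (h' : Lifts G' F S) (hS : IsPreconnected S) {a : X} (ha : a ∈ S)
    (he : G a = G' a) : EqOn G G' S :=
  cov.eqOn_of_comp_eqOn hS h.1 h'.1 (fun x hx => (h.2 x hx).trans (h'.2 x hx).symm) ha he

theorem Lifts.comp {X Y : Type*} [TopologicalSpace X] [TopologicalSpace Y] {G : X → ℝ}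
    {F : X → Angle} {S : Set X} (h : Lifts G F S) {f : Y → X} {T : Set Y} (hf : ContinuousOn f T)
    (hm : MapsTo f T S) : Lifts (G ∘ f) (F ∘ f) T :=
  ⟨h.1.comp hf hm, fun _ hy => h.2 _ (hm hy)⟩

theorem Lifts.congr {X : Type*} [TopologicalSpace X] {G : X → ℝ} {F F' : X → Angle} {S : Set X}
    (h : Lifts G F S) (he : EqOn F F' S) : Lifts G F' S :=
  ⟨h.1, fun x hx => (h.2 x hx).trans (he hx)⟩

theorem tietze {X Y : Type} [TopologicalSpace X] [NormalSpace X] [TopologicalSpace Y]
    [TietzeExtension.{0, 0} Y] {S : Set X} (hS : IsClosed S) {g : X → Y}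
    (hg : ContinuousOn g S) : ∃ G : X → Y, Continuous G ∧ EqOn G g S := by
  obtain ⟨G, hG⟩ := ContinuousMap.exists_restrict_eq hS
    (⟨S.domRestrict g, hg.domRestrict⟩ : C(S, Y))
  exact ⟨G, G.continuous, fun x hx => congr($hG ⟨x, hx⟩)⟩

section Convex

variable {E : Type*} [NormedAddCommGroup E] [NormedSpace ℝ E]

theorem exists_lift {S : Set E} (hS : Convex ℝ S) {F : E → Angle} (hF : ContinuousOn F S)
    {a : E} (ha : a ∈ S) {r : ℝ} (hr : (r : Angle) = F a) : ∃ G, Lifts G F S ∧ G a = r := by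
  classical
  have := hS.contractibleSpace ⟨a, ha⟩
  have := hS.locallyPathConnectedSpace
  obtain ⟨G, ⟨hG1, hG2⟩, -⟩ := cov.existsUnique_continuousMap_lifts
    (⟨S.domRestrict F, hF.domRestrict⟩ : C(S, Angle)) ⟨a, ha⟩ r hr
  refine ⟨fun x => if h : x ∈ S then G ⟨x, h⟩ else 0, ⟨?_, fun x hx => ?_⟩, by simp [ha, hG1]⟩
  · rw [continuousOn_iff_continuous_domRestrict]
    convert G.continuous using 1
    ext x
    simp [Set.domRestrict]
  · simp only [hx, dif_pos]
    exact congr_fun hG2 ⟨x, hx⟩

theorem exists_lift' {S : Set E} (hS : Convex ℝ S) {F : E → Angle} (hF : ContinuousOn F S) :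
    ∃ G, Lifts G F S := by
  rcases S.eq_empty_or_nonempty with rfl | ⟨a, ha⟩
  · exact ⟨0, continuousOn_empty _, by simp⟩
  · obtain ⟨G, hG, -⟩ := exists_lift hS hF ha (Angle.coe_toReal (F a))
    exact ⟨G, hG⟩

open Classical in
noncomputable def inc (F : E → Angle) (a b : E) : ℝ :=
  if h : ∃ G, Lifts G F (segment ℝ a b) then h.choose b - h.choose a else 0

theorem inc_eq {F : E → Angle} {G : E → ℝ} {a b : E} (h : Lifts G F (segment ℝ a b)) :
    inc F a b = G b - G a := by
  have h1 : ∃ G, Lifts G F (segment ℝ a b) := ⟨G, h⟩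
  rw [inc, dif_pos h1]
  have h2 := h1.choose_spec
  set G' := h1.choose
  have h3 : Lifts (fun x => G' x + (G a - G' a)) F (segment ℝ a b) := by
    refine ⟨h2.1.add continuousOn_const, fun x hx => ?_⟩
    rw [Angle.coe_add, Angle.coe_sub, h2.2 x hx, h.2 a (left_mem_segment _ _ _),
      h2.2 a (left_mem_segment _ _ _), sub_self, add_zero]
  have h4 := h3.eqOn h (convex_segment a b).isPreconnected (left_mem_segment _ _ _) (by simp)
    (right_mem_segment _ _ _)
  simp only at h4
  linarith

theorem inc_swap {F : E → Angle} {a b : E} (h : ContinuousOn F (segment ℝ a b)) :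
    inc F b a = -inc F a b := by
  obtain ⟨G, hG⟩ := exists_lift' (convex_segment a b) h
  rw [inc_eq hG, inc_eq (by rwa [segment_symm]), neg_sub]

theorem inc_coe {F : E → Angle} {a b : E} (h : ContinuousOn F (segment ℝ a b)) :
    (inc F a b : Angle) = F b - F a := by
  obtain ⟨G, hG⟩ := exists_lift' (convex_segment a b) h
  rw [inc_eq hG, Angle.coe_sub, hG.2 a (left_mem_segment _ _ _), hG.2 b (right_mem_segment _ _ _)]

theorem inc_congr {F F' : E → Angle} {a b : E} (h : ContinuousOn F (segment ℝ a b))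
    (he : EqOn F F' (segment ℝ a b)) : inc F a b = inc F' a b := by
  obtain ⟨G, hG⟩ := exists_lift' (convex_segment a b) h
  rw [inc_eq hG, inc_eq (hG.congr he)]

theorem inc_add {F F' : E → Angle} {a b : E} (h : ContinuousOn F (segment ℝ a b))
    (h' : ContinuousOn F' (segment ℝ a b)) :
    inc (fun x => F x + F' x) a b = inc F a b + inc F' a b := by
  obtain ⟨G, hG⟩ := exists_lift' (convex_segment a b) h
  obtain ⟨G', hG'⟩ := exists_lift' (convex_segment a b) h'
  have : Lifts (fun x => G x + G' x) (fun x => F x + F' x) (segment ℝ a b) :=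
    ⟨hG.1.add hG'.1, fun x hx => by rw [Angle.coe_add, hG.2 x hx, hG'.2 x hx]⟩
  rw [inc_eq hG, inc_eq hG', inc_eq this]
  ring

theorem inc_sum {ι : Type*} [Fintype ι] {F : ι → E → Angle} (n : ι → ℤ) {a b : E}
    (h : ∀ j, ContinuousOn (F j) (segment ℝ a b)) :
    inc (fun x => ∑ j, n j • F j x) a b = ∑ j, n j * inc (F j) a b := by
  choose G hG using fun j => exists_lift' (convex_segment a b) (h j)
  have : Lifts (fun x => ∑ j, n j * G j x) (fun x => ∑ j, n j • F j x) (segment ℝ a b) := by
    refine ⟨continuousOn_finsetSum _ fun j _ => continuousOn_const.mul (hG j).1, fun x hx => ?_⟩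
    have := map_sum Angle.coeHom (fun j => (n j : ℝ) * G j x) Finset.univ
    simp only [Angle.coe_coeHom] at this
    rw [this]
    refine Finset.sum_congr rfl fun j _ => ?_
    rw [← (hG j).2 x hx, ← zsmul_eq_mul, Angle.coe_zsmul]
  rw [inc_eq this, ← Finset.sum_sub_distrib]
  refine Finset.sum_congr rfl fun j _ => ?_
  rw [inc_eq (hG j)]
  ring

theorem inc_tri {F : E → Angle} {S : Set E} (hS : Convex ℝ S) (h : ContinuousOn F S) {a b c : E}
    (ha : a ∈ S) (hb : b ∈ S) (hc : c ∈ S) : inc F a b + inc F b c + inc F c a = 0 := by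
  obtain ⟨G, hG⟩ := exists_lift' hS h
  rw [inc_eq (hG.mono (hS.segment_subset ha hb)), inc_eq (hG.mono (hS.segment_subset hb hc)),
    inc_eq (hG.mono (hS.segment_subset hc ha))]
  ring

end Convex

theorem exists_lift_real {A : Set ℝ} (hA : IsClosed A) {F : ℝ → Angle}
    (hF : ContinuousOn F A) : ∃ G, Lifts G F A := by
  have hc : Continuous fun θ : Angle => (θ.toCircle : ℂ) := by
    have : (fun θ : Angle => (θ.toCircle : ℂ)) = fun θ => θ.cos + θ.sin * Complex.I := by
      ext θ; exact Angle.coe_toCircle θ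
    rw [this]
    have := Angle.continuous_cos
    have := Angle.continuous_sin
    fun_prop
  obtain ⟨H, hH, hHA⟩ := tietze (Y := ℂ) hA (hc.comp_continuousOn hF)
  set U : Set ℝ := {x | H x ≠ 0} with hU
  have hUo : IsOpen U := isOpen_ne_fun hH continuous_const
  let Φ : ℝ → Angle := fun x => (Complex.arg (H x) : Angle)
  have hΦ : ContinuousOn Φ U := fun x hx =>
    ((Complex.continuousAt_arg_coe_angle hx).comp hH.continuousAt).continuousWithinAt
  have hex : ∀ C : Set ℝ, ∃ G : ℝ → ℝ, Convex ℝ C → C ⊆ U → Lifts G Φ C := by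
    intro C
    by_cases h : Convex ℝ C ∧ C ⊆ U
    · obtain ⟨G, hG⟩ := exists_lift' h.1 (hΦ.mono h.2)
      exact ⟨G, fun _ _ => hG⟩
    · exact ⟨0, fun h1 h2 => absurd ⟨h1, h2⟩ h⟩
  choose g hg using hex
  have hg' : ∀ x, Lifts (g (connectedComponentIn U x)) Φ (connectedComponentIn U x) := fun x =>
    hg _ isPreconnected_connectedComponentIn.convex (connectedComponentIn_subset _ _)
  have hAU : A ⊆ U := fun x hx => by
    rw [hU, mem_ofPred_eq, hHA hx]
    exact Circle.coe_ne_zero _
  refine ⟨fun x => g (connectedComponentIn U x) x, fun x hx => ?_, fun x hx => ?_⟩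
  · have h1 : connectedComponentIn U x ∈ nhds x :=
      connectedComponentIn_mem_nhds (hUo.mem_nhds (hAU hx))
    refine (((hg' x).1.continuousAt h1).congr ?_).continuousWithinAt
    filter_upwards [h1] with y hy
    rw [connectedComponentIn_eq hy]
  · rw [(hg' x).2 x (mem_connectedComponentIn (hAU hx))]
    simp only [Φ]
    rw [hHA hx]
    exact Angle.arg_toCircle _

theorem contOn_invFunOn {X Y : Type*} [TopologicalSpace X] [TopologicalSpace Y] [T2Space Y]
    [Nonempty X] {f : X → Y} {S : Set X} (hS : IsCompact S) (hf : ContinuousOn f S)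
    (hi : InjOn f S) : ContinuousOn (Function.invFunOn f S) (f '' S) := by
  rw [continuousOn_iff_isClosed]
  intro t ht
  refine ⟨f '' (S ∩ t), ((hS.inter_right ht).image_of_continuousOn
    (hf.mono inter_subset_left)).isClosed, ?_⟩
  ext y
  constructor
  · rintro ⟨hy, x, hx, rfl⟩
    rw [mem_preimage, hi.leftInvOn_invFunOn hx] at hy
    exact ⟨⟨x, ⟨hx, hy⟩, rfl⟩, x, hx, rfl⟩
  · rintro ⟨⟨x, ⟨hx, hxt⟩, rfl⟩, -⟩
    refine ⟨?_, x, hx, rfl⟩
    rwa [mem_preimage, hi.leftInvOn_invFunOn hx]

theorem inc_arg_pos {E : Type*} [NormedAddCommGroup E] [NormedSpace ℝ E] (z : E →L[ℝ] ℂ) (q : ℂ)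
    {a b : E} (h : 0 < ((starRingEnd ℂ) (z a - q) * (z b - q)).im) :
    0 < inc (fun x => (Complex.arg (z x - q) : Angle)) a b := by
  have ha : z a - q ≠ 0 := by
    intro h0; simp [h0] at h
  set u := z a - q with hu
  set v := z b - q with hv
  have hn : 0 < Complex.normSq u := Complex.normSq_pos.2 ha
  have him : 0 < (v / u).im := by
    rw [Complex.div_im]
    simp only [Complex.mul_im, Complex.conj_re, Complex.conj_im] at h
    rw [← sub_div]
    exact div_pos (by linarith) hn
  have hs : ∀ x ∈ segment ℝ a b, (z x - q) / u ∈ Complex.slitPlane := by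
    rintro x ⟨s, t, hs, ht, hst, rfl⟩
    have e : (z (s • a + t • b) - q) / u = s + t * (v / u) := by
      have : z (s • a + t • b) - q = s * u + t * v := by
        simp only [map_add, map_smul, Complex.real_smul, hu, hv]
        have : (s : ℂ) + t = 1 := by exact_mod_cast hst
        linear_combination q * this
      rw [this]; field_simp
    rw [e]
    rcases ht.eq_or_lt with h0 | h0
    · left
      rw [← h0] at hst ⊢
      simp; linarith
    · right
      simp only [Complex.add_im, Complex.ofReal_im, Complex.mul_im, Complex.ofReal_re, zero_mul,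
        add_zero, zero_add]
      positivity
  have hl : Lifts (fun x => Complex.arg u + Complex.arg ((z x - q) / u))
      (fun x => (Complex.arg (z x - q) : Angle)) (segment ℝ a b) := by
    refine ⟨continuousOn_const.add fun x hx => ?_, fun x hx => ?_⟩
    · exact ((Complex.continuousAt_arg (hs x hx)).comp (f := fun x => (z x - q) / u)
        (by fun_prop)).continuousWithinAt
    · have h1 : z x - q ≠ 0 := by
        intro h0
        have := hs x hx
        simp [h0] at this
      rw [Angle.coe_add, Complex.arg_div_coe_angle h1 ha]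
      abel
  rw [inc_eq hl]
  simp only [← hu, ← hv, div_self ha, Complex.arg_one]
  have h1 := Complex.arg_nonneg_iff.2 him.le
  have h2 : Complex.arg (v / u) ≠ 0 := fun h0 => him.ne' (Complex.arg_eq_zero_iff.1 h0).2
  have := lt_of_le_of_ne h1 h2.symm
  linarith

end Pool.Agent.Lib.MP_e11f15_gt
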