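import Pool.Agent.Lib.MP_e11f15_gt.Defs
import Pool.Agent.Lib.MP_e11f15_gt.Lift

open Set Real

set_option linter.unusedSectionVars false

namespace Pool.Agent.Lib.MP_e11f15_gt

theorem contOn_list {X Y ι : Type*} [TopologicalSpace X] [TopologicalSpace Y] (T : List ι)
    (S : ι → Set X) (hc : ∀ s, IsClosed (S s)) {f : X → Y} (hf : ∀ s ∈ T, ContinuousOn f (S s)) :
    IsClosed {x | ∃ s ∈ T, x ∈ S s} ∧ ContinuousOn f {x | ∃ s ∈ T, x ∈ S s} := by
  induction T with
  | nil => simp
  | cons s T ih =>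
    have e : {x | ∃ s' ∈ s :: T, x ∈ S s'} = S s ∪ {x | ∃ s' ∈ T, x ∈ S s'} := by
      ext x; simp
    obtain ⟨h1, h2⟩ := ih fun s' hs' => hf s' (List.mem_cons_of_mem _ hs')
    rw [e]
    exact ⟨(hc s).union h1, (hf s List.mem_cons_self).union_of_isClosed h2 (hc s) h1⟩

section PL

variable {E F : Type} [NormedAddCommGroup E] [NormedSpace ℝ E] [NormedAddCommGroup F]
  [NormedSpace ℝ F]

theorem IsPolyhedron.isCompact {P : Set E} (h : IsPolyhedron P) : IsCompact P := by
  obtain ⟨T, rfl⟩ := h
  exact T.isCompact_biUnion fun s _ => s.finite_toSet.isCompact_convexHull ℝ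

theorem IsPLOn.continuousOn [FiniteDimensional ℝ E] {f : E → F} {P : Set E} (h : IsPLOn f P) :
    ContinuousOn f P := by
  obtain ⟨T, rfl, hT⟩ := h
  have := (contOn_list T.toList (fun s : Finset E => convexHull ℝ (s : Set E))
    (fun s => (s.finite_toSet.isCompact_convexHull ℝ).isClosed) (f := f) fun s hs => by
      obtain ⟨g, hg⟩ := hT s (Finset.mem_toList.1 hs)
      exact g.continuous_of_finiteDimensional.continuousOn.congr hg).2
  convert this using 1
  ext x; simp

noncomputable def mn {n : ℕ} (y : Fin (n + 2) → ℝ) : ℝ :=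
  Finset.univ.inf' Finset.univ_nonempty fun i : Fin (n + 1) => y i.succ

noncomputable def retr {n : ℕ} (y : Fin (n + 2) → ℝ) : Fin (n + 2) → ℝ :=
  Fin.cons (y 0 + (n + 1) * mn y) fun i => y i.succ - mn y

theorem mn_cont {n : ℕ} : Continuous (mn (n := n)) :=
  Continuous.finset_inf'_apply _ fun _ _ => continuous_apply _

theorem retr_cont {n : ℕ} : Continuous (retr (n := n)) := by
  have := mn_cont (n := n)
  refine continuous_pi fun j => ?_
  refine Fin.cases ?_ (fun i => ?_) j
  · simp only [retr, Fin.cons_zero]; fun_prop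
  · simp only [retr, Fin.cons_succ]; fun_prop

theorem mn_le {n : ℕ} (y : Fin (n + 2) → ℝ) (i : Fin (n + 1)) : mn y ≤ y i.succ :=
  Finset.inf'_le (fun i : Fin (n + 1) => y i.succ) (Finset.mem_univ i)

theorem mn_nonneg {n : ℕ} {y : Fin (n + 2) → ℝ} (hy : y ∈ stdSimplex ℝ (Fin (n + 2))) :
    0 ≤ mn y := Finset.le_inf' _ _ fun i _ => hy.1 i.succ

theorem retr_mem {n : ℕ} {y : Fin (n + 2) → ℝ} (hy : y ∈ stdSimplex ℝ (Fin (n + 2))) :
    retr y ∈ horn n := by
  have h0 := mn_nonneg hy
  refine ⟨⟨fun j => ?_, ?_⟩, ?_⟩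
  · refine Fin.cases ?_ (fun i => ?_) j
    · simp only [retr, Fin.cons_zero]
      exact add_nonneg (hy.1 0) (by positivity)
    · simp only [retr, Fin.cons_succ]
      linarith [mn_le y i]
  · have := hy.2
    rw [Fin.sum_univ_succ] at this ⊢
    simp only [retr, Fin.cons_zero, Fin.cons_succ, Finset.sum_sub_distrib, Finset.sum_const,
      Finset.card_univ, Fintype.card_fin, nsmul_eq_mul]
    push_cast
    linarith
  · obtain ⟨i, -, hi⟩ := Finset.exists_mem_eq_inf' Finset.univ_nonempty
      fun i : Fin (n + 1) => y i.succ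
    refine ⟨i, ?_⟩
    simp only [retr, Fin.cons_succ]
    rw [mn, hi, sub_self]

theorem retr_eq {n : ℕ} {y : Fin (n + 2) → ℝ} (hy : y ∈ horn n) : retr y = y := by
  obtain ⟨hy, i, hi⟩ := hy
  have h0 : mn y = 0 := le_antisymm (hi ▸ mn_le y i) (mn_nonneg hy)
  ext j
  refine Fin.cases ?_ (fun i => ?_) j <;> simp [retr, h0]

theorem ElemCollapse.extend {Z : Type*} [TopologicalSpace Z] {P Q : Set E} (h : ElemCollapse P Q)
    {G : E → Z} (hG : ContinuousOn G Q) : ∃ G', ContinuousOn G' P ∧ EqOn G' G Q := by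
  classical
  obtain ⟨hQ, n, h, hpl, hinj, rfl, hint⟩ := h
  have hc := hpl.continuousOn
  have hΔ := isCompact_stdSimplex ℝ (Fin (n + 2))
  have hB := hΔ.image_of_continuousOn hc
  have hinv := contOn_invFunOn hΔ hc hinj
  set k := Function.invFunOn h (stdSimplex ℝ (Fin (n + 2))) with hk
  have hkm : MapsTo k (h '' stdSimplex ℝ (Fin (n + 2))) (stdSimplex ℝ (Fin (n + 2))) :=
    fun x hx => Function.invFunOn_mem hx
  have hhorn : ∀ y ∈ horn n, h y ∈ Q := fun y hy =>
    (hint.symm.subset (mem_image_of_mem h hy)).1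
  refine ⟨fun x => if x ∈ Q then G x else G (h (retr (k x))), ?_, fun x hx => by simp [hx]⟩
  refine ContinuousOn.union_of_isClosed (hG.congr fun x hx => by simp [hx]) ?_
    hQ.isCompact.isClosed hB.isClosed
  have h1 : ContinuousOn (fun x => G (h (retr (k x)))) (h '' stdSimplex ℝ (Fin (n + 2))) :=
    hG.comp (hc.comp (retr_cont.comp_continuousOn hinv) fun x hx => (retr_mem (hkm hx)).1)
      fun x hx => hhorn _ (retr_mem (hkm hx))
  refine h1.congr fun x hx => ?_
  by_cases hxQ : x ∈ Q
  · obtain ⟨y, hy, rfl⟩ := hint.subset ⟨hxQ, hx⟩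
    simp only [hxQ, if_true]
    rw [hk, hinj.leftInvOn_invFunOn hy.1, retr_eq hy]
  · simp [hxQ]

theorem Collapses.extend {Z : Type*} [TopologicalSpace Z] {P Q : Set E} (h : Collapses P Q) :
    Q ⊆ P ∧ ∀ G : E → Z, ContinuousOn G Q → ∃ G', ContinuousOn G' P ∧ EqOn G' G Q := by
  induction h with
  | refl => exact ⟨Subset.rfl, fun G hG => ⟨G, hG, fun _ _ => rfl⟩⟩
  | @tail A B _ h2 ih =>
    have hBA : B ⊆ A := by
      obtain ⟨-, n, h, -, -, rfl, -⟩ := h2
      exact subset_union_left
    refine ⟨hBA.trans ih.1, fun G hG => ?_⟩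
    obtain ⟨G1, h1, h1'⟩ := h2.extend hG
    obtain ⟨G2, h3, h3'⟩ := ih.2 G1 h1
    exact ⟨G2, h3, fun x hx => (h3' (hBA hx)).trans (h1' hx)⟩

end PL

section Cx

variable {V : Type} [Fintype V] [DecidableEq V]

abbrev ev (v : V) : V → ℝ := Pi.single v 1

def spx (s : List V) : Set (V → ℝ) := {x | x ∈ stdSimplex ℝ V ∧ ∀ v, v ∉ s → x v = 0}

def real (T : List (List V)) : Set (V → ℝ) := {x | ∃ s ∈ T, x ∈ spx s}

theorem spx_convex (s : List V) : Convex ℝ (spx s) := by
  intro x hx y hy a b ha hb hab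
  exact ⟨convex_stdSimplex ℝ V hx.1 hy.1 ha hb hab, fun v hv => by simp [hx.2 v hv, hy.2 v hv]⟩

theorem ev_mem {s : List V} {v : V} (hv : v ∈ s) : ev v ∈ spx s :=
  ⟨single_mem_stdSimplex ℝ v, fun u hu => by
    have : u ≠ v := fun h => hu (h ▸ hv)
    simp [this]⟩

theorem spx_eq (s : List V) : spx s = convexHull ℝ (ev '' {v | v ∈ s}) := by
  refine Subset.antisymm (fun x hx => ?_) (convexHull_min ?_ (spx_convex s))
  · have h1 : ∑ v ∈ s.toFinset, x v = 1 := by
      rw [← hx.1.2]
      exact Finset.sum_subset (Finset.subset_univ _) fun v _ hv => hx.2 v (by simpa using hv)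
    have h2 : x = ∑ v ∈ s.toFinset, x v • ev v := by
      ext u
      simp only [Finset.sum_apply, Pi.smul_apply, Pi.single_apply, smul_eq_mul, mul_ite, mul_one,
        mul_zero, Finset.sum_ite_eq, List.mem_toFinset]
      split_ifs with h
      · rfl
      · exact hx.2 u h
    rw [h2]
    exact (convex_convexHull ℝ _).sum_mem (fun v _ => hx.1.1 v) h1 fun v hv =>
      subset_convexHull ℝ _ ⟨v, by simpa using hv, rfl⟩
  · rintro _ ⟨v, hv, rfl⟩
    exact ev_mem hv

theorem spx_compact (s : List V) : IsCompact (spx s) := by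
  rw [spx_eq]
  exact ((List.finite_toSet s).image _).isCompact_convexHull ℝ

theorem spx_closed (s : List V) : IsClosed (spx s) := (spx_compact s).isClosed

theorem spx_mono {s t : List V} (h : ∀ v ∈ s, v ∈ t) : spx s ⊆ spx t :=
  fun _ hx => ⟨hx.1, fun v hv => hx.2 v fun h' => hv (h v h')⟩

theorem real_polyhedron (T : List (List V)) : IsPolyhedron (real T) := by
  classical
  refine ⟨(T.map fun s => s.toFinset.image ev).toFinset, ?_⟩
  ext x
  simp only [real, spx_eq, mem_ofPred_eq, List.mem_toFinset, List.mem_map, mem_iUnion,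
    exists_prop, exists_exists_and_eq_and, Finset.coe_image, List.coe_toFinset]

theorem real_compact (T : List (List V)) : IsCompact (real T) := (real_polyhedron T).isCompact

theorem spx_subset_real {T : List (List V)} {s : List V} (hs : s ∈ T) : spx s ⊆ real T :=
  fun _ hx => ⟨s, hs, hx⟩

def sub (a b : List V) : Bool := a.all fun x => b.contains x

omit [Fintype V] in
theorem sub_iff {a b : List V} : sub a b = true ↔ ∀ v ∈ a, v ∈ b := by simp [sub]

def cov1 (s : List V) (T : List (List V)) : Bool := T.any fun t => sub s t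

theorem cov1_spec {s : List V} {T : List (List V)} (h : cov1 s T = true) : spx s ⊆ real T := by
  obtain ⟨t, ht, h⟩ := List.any_eq_true.1 h
  exact (spx_mono (sub_iff.1 h)).trans (spx_subset_real ht)

def dom (T T' : List (List V)) : Bool := T.all fun s => cov1 s T'

theorem dom_spec {T T' : List (List V)} (h : dom T T' = true) : real T ⊆ real T' := by
  rintro x ⟨s, hs, hx⟩
  exact cov1_spec (List.all_eq_true.1 h s hs) hx

def okp (v : V) (us : List V) (T : List (List V)) : Bool :=
  decide (v :: us).Nodup && !us.isEmpty && (us.all fun u => cov1 (v :: us.erase u) T) &&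
    T.all fun t => !sub us t

theorem elem_of_okp {v : V} {us : List V} {T : List (List V)} (h : okp v us T = true) :
    ElemCollapse (real ((v :: us) :: T)) (real T) := by
  classical
  simp only [okp, Bool.and_eq_true, decide_eq_true_eq, Bool.not_eq_true', List.all_eq_true] at h
  obtain ⟨⟨⟨hnd, hne⟩, hcov⟩, hfree⟩ := h
  obtain ⟨u0, us', rfl⟩ : ∃ u0 us', us = u0 :: us' := by
    cases us with
    | nil => simp at hne
    | cons a l => exact ⟨a, l, rfl⟩
  set l := v :: u0 :: us' with hl
  let ι : Fin (us'.length + 2) → V := l.get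
  have hι : Function.Injective ι := List.nodup_iff_injective_get.1 hnd
  have hmem : ∀ w, w ∈ l ↔ ∃ i, ι i = w := fun w => List.mem_iff_get
  have hsucc : ∀ w, w ∈ u0 :: us' ↔ ∃ i : Fin (us'.length + 1), ι i.succ = w :=
    fun w => List.mem_iff_get
  let h : (Fin (us'.length + 2) → ℝ) →ₗ[ℝ] (V → ℝ) :=
    ∑ i, (LinearMap.proj i : (Fin (us'.length + 2) → ℝ) →ₗ[ℝ] ℝ).smulRight (ev (ι i))
  have hh : ∀ y w, h y w = ∑ i, if w = ι i then y i else 0 := by
    intro y w
    simp [h, Finset.sum_apply, Pi.single_apply]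
  have hh1 : ∀ y i, h y (ι i) = y i := by
    intro y i
    simp [hh, hι.eq_iff]
  have hh2 : ∀ y w, w ∉ l → h y w = 0 := by
    intro y w hw
    rw [hh]
    refine Finset.sum_eq_zero fun i _ => if_neg fun h' => hw ((hmem w).2 ⟨i, h'.symm⟩)
  have himg : h '' stdSimplex ℝ (Fin (us'.length + 2)) = spx l := by
    rw [← convexHull_rangle_single_eq_stdSimplex, LinearMap.image_convexHull, spx_eq,
      ← range_comp]
    congr 1
    have : ∀ i, h (Pi.single i 1) = ev (ι i) := by
      intro i
      simp [h, Pi.single_apply]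
    ext x
    simp only [mem_range, Function.comp_apply, this, mem_image, mem_ofPred_eq, hmem,
      exists_exists_eq_and]
  refine ⟨real_polyhedron T, us'.length, h, ?_, ?_, ?_, ?_⟩
  · refine ⟨{Finset.univ.image fun i => Pi.single i 1}, ?_, fun s _ => ⟨h.toAffineMap, fun _ _ => rfl⟩⟩
    simp [convexHull_rangle_single_eq_stdSimplex]
  · intro y _ y' _ hy
    ext i
    rw [← hh1 y i, hy, hh1]
  · rw [himg]
    ext x
    simp only [real, List.mem_cons (a := _) (b := l), mem_ofPred_eq, mem_union, exists_eq_or_imp]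
    exact or_comm
  · ext x
    constructor
    · rintro ⟨⟨t, ht, hxt⟩, y, hy, rfl⟩
      have h1 : ¬ ∀ w ∈ u0 :: us', w ∈ t := by
        rw [← sub_iff, hfree t ht]; simp
      push Not at h1
      obtain ⟨w, hw, hwt⟩ := h1
      obtain ⟨i, rfl⟩ := (hsucc w).1 hw
      exact ⟨y, ⟨hy, i, by rw [← hh1 y, hxt.2 _ hwt]⟩, rfl⟩
    · rintro ⟨y, ⟨hy, i, hi⟩, rfl⟩
      refine ⟨?_, y, hy, rfl⟩
      have hx : h y ∈ spx l := himg ▸ mem_image_of_mem h hy
      have hu : ι i.succ ∈ u0 :: us' := (hsucc _).2 ⟨i, rfl⟩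
      refine cov1_spec (hcov _ hu) ⟨hx.1, fun w hw => ?_⟩
      by_cases hwi : w = ι i.succ
      · rw [hwi, hh1, hi]
      · refine hx.2 w fun hw' => hw ?_
        rcases List.mem_cons.1 hw' with h1 | h1
        · exact h1 ▸ List.mem_cons_self
        · exact List.mem_cons_of_mem _ ((List.mem_erase_of_ne hwi).2 h1)

def col (T : List (List V)) (v : V) (us : List V) : List (List V) :=
  let R := T.filter fun t => !sub us t
  ((us.map fun u => v :: us.erase u).filter fun s => !cov1 s R) ++ R

def chk : List (List V) → List (Bool × V × List V) → List (List V) → Bool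
  | T, [], T1 => dom T T1 && dom T1 T
  | T, (true, v, us) :: ms, T1 =>
    okp v us (col T v us) && dom T ((v :: us) :: col T v us) && dom ((v :: us) :: col T v us) T &&
      chk (col T v us) ms T1
  | T, (false, v, us) :: ms, T1 => okp v us T && chk ((v :: us) :: T) ms T1

theorem chk_spec (ms : List (Bool × V × List V)) (T1 : List (List V)) :
    ∀ T, chk T ms T1 = true → Deforms (real T) (real T1) := by
  induction ms with
  | nil =>
    intro T h
    simp only [chk, Bool.and_eq_true] at h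
    rw [Subset.antisymm (dom_spec h.1) (dom_spec h.2)]
    exact Relation.ReflTransGen.refl
  | cons m ms ih =>
    intro T h
    obtain ⟨b, v, us⟩ := m
    cases b with
    | true =>
      simp only [chk, Bool.and_eq_true] at h
      obtain ⟨⟨⟨h1, h2⟩, h3⟩, h4⟩ := h
      refine Relation.ReflTransGen.head (Or.inl ?_) (ih _ h4)
      rw [Subset.antisymm (dom_spec h2) (dom_spec h3)]
      exact elem_of_okp h1
    | false =>
      simp only [chk, Bool.and_eq_true] at h
      exact Relation.ReflTransGen.head (Or.inr (elem_of_okp h.1)) (ih _ h.2)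

def tl (t : V × V × V) : List V := [t.1, t.2.1, t.2.2]

theorem twoPoly {T : List (V × V × V)} (hne : T ≠ []) (hnd : ∀ t ∈ T, (tl t).Nodup) :
    IsTwoPolyhedron (real (T.map tl)) := by
  classical
  refine ⟨(T.map fun t => fun i : Fin 3 => ev ((tl t).get i)).toFinset, ?_, ?_, ?_⟩
  · obtain ⟨t, ht⟩ := List.exists_mem_of_ne_nil T hne
    exact ⟨_, List.mem_toFinset.2 (List.mem_map_of_mem ht)⟩
  · intro f hf
    obtain ⟨t, ht, rfl⟩ := List.mem_map.1 (List.mem_toFinset.1 hf)
    exact ((Pi.linearIndependent_single_one V ℝ).comp _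
      (List.nodup_iff_injective_get.1 (hnd t ht))).affineIndependent
  · ext x
    have : ∀ t : V × V × V, (range fun i : Fin 3 => ev ((tl t).get i)) = ev '' {v | v ∈ tl t} := by
      intro t
      ext y
      simp only [mem_range, mem_image, mem_ofPred_eq, List.mem_iff_get, exists_exists_eq_and]
      rfl
    simp only [real, spx_eq, mem_ofPred_eq, List.mem_toFinset, List.mem_map, mem_iUnion,
      exists_prop, exists_exists_and_eq_and, this]

end Cx

end Pool.Agent.Lib.MP_e11f15_gt
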