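import Pool.Agent.Lib.MP_e11f15_gt.Rank

namespace Pool.Agent.Lib.MP_e11f15_gt

def K1 : List (Fin 26 × Fin 26 × Fin 26) :=
  [(12, 0, 8), (4, 8, 0), (12, 4, 0), (5, 12, 8), (1, 12, 5), (1, 4, 12), (0, 7, 11), (3, 7, 0), (11, 3, 0), (8, 11, 7), (4, 11, 8), (4, 3, 11), (10, 0, 6), (2, 6, 0), (10, 2, 0), (7, 10, 6), (3, 10, 7), (3, 2, 10), (9, 0, 5), (0, 1, 5), (6, 9, 5), (7, 5, 8), (6, 5, 7), (2, 9, 6), (2, 1, 9), (1, 3, 4), (1, 2, 3), (9, 1, 0)]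

def K2 : List (Fin 26 × Fin 26 × Fin 26) :=
  [(22, 23, 19), (16, 19, 23), (22, 16, 23), (17, 22, 19), (14, 22, 17), (14, 16, 22), (21, 0, 18), (15, 18, 0), (21, 15, 0), (19, 21, 18), (16, 21, 19), (16, 15, 21), (20, 0, 17), (0, 14, 17), (18, 20, 17), (18, 17, 19), (15, 20, 18), (15, 14, 20), (14, 15, 16), (20, 14, 0)]

def L1 : List (Fin 26 × Fin 26 × Fin 26) :=
  [(12, 13, 8), (4, 8, 13), (12, 4, 13), (5, 12, 8), (1, 12, 5), (1, 4, 12), (0, 7, 11), (3, 7, 0), (11, 3, 0), (8, 11, 7), (4, 11, 8), (4, 3, 11), (10, 0, 6), (2, 6, 0), (10, 2, 0), (7, 10, 6), (3, 10, 7), (3, 2, 10), (9, 0, 5), (0, 1, 5), (6, 9, 5), (7, 5, 8), (6, 5, 7), (2, 9, 6), (2, 1, 9), (1, 3, 4), (1, 2, 3), (9, 1, 0)]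

def L2 : List (Fin 26 × Fin 26 × Fin 26) :=
  [(22, 0, 19), (16, 19, 0), (22, 16, 0), (17, 22, 19), (14, 22, 17), (14, 16, 22), (21, 0, 18), (15, 18, 0), (21, 15, 0), (19, 21, 18), (16, 21, 19), (16, 15, 21), (20, 0, 17), (0, 14, 17), (18, 20, 17), (18, 17, 19), (15, 20, 18), (15, 14, 20), (14, 15, 16), (20, 14, 0)]

def mv : List (Bool × Fin 26 × List (Fin 26)) :=
  [(false, 0, [13]), (false, 0, [13, 12]), (false, 0, [13, 4]), (false, 0, [13, 8]), (false, 0, [13, 12, 4]), (false, 0, [13, 4, 8]), (false, 0, [13, 8, 12]), (true, 13, [0, 12, 4]), (true, 13, [0, 4, 8]), (true, 13, [0, 8, 12]), (true, 13, [0, 12]), (true, 13, [0, 4]), (true, 13, [0, 8]), (false, 0, [25]), (false, 0, [13, 25]), (true, 25, [0, 13]), (false, 25, [24]), (false, 25, [13, 24]), (true, 24, [25, 13]), (false, 13, [24, 4]), (true, 4, [24, 13]), (false, 4, [24, 1]), (true, 1, [24, 4]), (false, 1, [24,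 0]), (true, 0, [24, 1]), (false, 0, [24, 14]), (true, 14, [24, 0]), (false, 14, [24, 16]), (true, 16, [24, 14]), (false, 16, [24, 23]), (true, 23, [24, 16]), (false, 24, [25, 23]), (true, 25, [23, 24]), (true, 25, [24]), (false, 25, [0, 23]), (true, 0, [23, 25]), (true, 0, [25]), (false, 23, [0, 19]), (false, 23, [0, 16]), (false, 23, [0, 22]), (false, 23, [0, 19, 22]), (false, 23, [0, 16, 19]), (false, 23, [0, 22, 16]), (true, 0, [23, 19, 22]), (true, 0, [23, 16, 19]), (true, 0, [23, 22, 16]), (true, 0, [23, 19]), (true, 0, [23, 16]), (true, 0, [23, 22]), (true, 0, [23])]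

def dK1 : List (Fin 26 × Fin 26 × Fin 26 × Fin 26) :=
  [(0, 8, 12, 4), (8, 12, 0, 5), (12, 4, 0, 1), (4, 8, 0, 11), (5, 12, 8, 1), (8, 5, 12, 7), (1, 4, 12, 3), (4, 11, 8, 3), (11, 8, 4, 7), (5, 1, 12, 0), (7, 5, 8, 6), (1, 3, 4, 2), (3, 11, 4, 0), (11, 7, 8, 0), (0, 1, 5, 9), (5, 0, 1, 9), (6, 5, 7, 9), (7, 6, 5, 10), (1, 2, 3, 9), (2, 3, 1, 10), (3, 0, 11, 7), (6, 9, 5, 2), (7, 10, 6, 3), (10, 6, 7, 0), (2, 10, 3, 0), (6, 2, 9, 0)]

theorem rK1 : chkr K1 [[12, 0, 8]] ((12, 0, 8, 4) :: dK1) = true := by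
  decide +kernel

def dL1 : List (Fin 26 × Fin 26 × Fin 26 × Fin 26) :=
  [(13, 8, 12, 4), (8, 12, 13, 5), (12, 4, 13, 1), (4, 8, 13, 11), (5, 12, 8, 1), (8, 5, 12, 7), (1, 4, 12, 3), (4, 11, 8, 3), (11, 8, 4, 7), (5, 1, 12, 0), (7, 5, 8, 6), (1, 3, 4, 2), (3, 11, 4, 0), (11, 7, 8, 0), (0, 1, 5, 9), (5, 0, 1, 9), (6, 5, 7, 9), (7, 6, 5, 10), (1, 2, 3, 9), (2, 3, 1, 10), (3, 0, 11, 7), (6, 9, 5, 2), (7, 10, 6, 3), (10, 6, 7, 0), (2, 10, 3, 0), (6, 2, 9, 0)]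

theorem rL1 : chkr L1 [[12, 13, 8]] ((12, 13, 8, 4) :: dL1) = true := by
  decide +kernel

def dL2 : List (Fin 26 × Fin 26 × Fin 26 × Fin 26) :=
  [(0, 19, 22, 16), (19, 22, 0, 17), (22, 16, 0, 14), (16, 19, 0, 21), (17, 22, 19, 14), (19, 17, 22, 18), (14, 16, 22, 15), (16, 21, 19, 15), (21, 19, 16, 18), (17, 14, 22, 0), (18, 17, 19, 20), (14, 15, 16, 20), (15, 21, 16, 0), (21, 18, 19, 0), (0, 14, 17, 20), (17, 0, 14, 20), (18, 20, 17, 15), (15, 0, 21, 18)]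

theorem rL2 : chkr L2 [[22, 0, 19]] ((22, 0, 19, 16) :: dL2) = true := by
  decide +kernel

def loK1 : List (List (Fin 26 × Fin 26)) :=
  [[(0, 9), (9, 2), (2, 0)], [(0, 1), (1, 3), (3, 0)], [(0, 1), (1, 4), (4, 0)]]

def peK1 : List (List (Fin 26 × Fin 26)) :=
  [[], [(0, 1)], [(0, 9), (9, 2)], [(0, 1), (1, 3)], [(0, 1), (1, 4)], [(0, 5)], [(0, 9), (9, 6)], [(0, 1), (1, 3), (3, 7)], [(0, 1), (1, 4), (4, 8)], [(0, 9)], [(0, 9), (9, 2), (2, 10)], [(0, 1), (1, 3), (3, 11)], [(0, 1), (1, 12)], [], [], [], [], [], [], [], [], [], [], [], [], []]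

def trK1 : List (Fin 26 × Fin 26) :=
  [(0, 9), (9, 2), (0, 1), (1, 3), (1, 4), (0, 5), (9, 6), (2, 10), (1, 12), (3, 7), (3, 11), (4, 8)]

def rsK1 : List (List (Fin 26 × Fin 26)) :=
  [[(0, 9), (9, 2), (2, 0)], [(0, 1), (1, 3), (3, 0)], [(0, 1), (1, 4), (4, 0)], [(4, 8), (8, 0), (0, 4)], [(1, 4), (4, 12), (12, 1)], [(3, 7), (7, 0), (0, 3)], [(11, 3), (3, 0), (0, 11)], [(10, 2), (2, 0), (0, 10)], [(9, 0), (0, 5), (5, 9)], [(0, 1), (1, 5), (5, 0)], [(6, 9), (9, 5), (5, 6)], [(2, 9), (9, 6), (6, 2)], [(1, 3), (3, 4), (4, 1)], [(9, 1), (1, 0), (0, 9)], [(12, 4), (4, 0), (0, 12)], [(1, 12), (12, 5), (5, 1)], [(0, 7), (7, 11), (11, 0)], [(4, 3), (3, 11), (11, 4)], [(2, 6), (6, 0), (0, 2)], [(2, 1), (1, 9), (9, 2)], [(1, 2), (2, 3), (3, 1)], [(12, 0), (0, 8), (8, 12)], [(5, 12), (12, 8), (8, 5)], [(4, 11), (11, 8), (8, 4)], [(10, 0), (0, 6), (6, 10)], [(3, 2), (2, 10), (10,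 3)], [(8, 11), (11, 7), (7, 8)], [(3, 10), (10, 7), (7, 3)], [(7, 5), (5, 8), (8, 7)], [(6, 5), (5, 7), (7, 6)]]

theorem cK1 : cert K1 0 (fun v => peK1.getD v.val []) loK1 trK1 rsK1 = true := by
  decide +kernel

def loK2 : List (List (Fin 26 × Fin 26)) :=
  [[(0, 20), (20, 15), (15, 0)]]

def peK2 : List (List (Fin 26 × Fin 26)) :=
  [[], [], [], [], [], [], [], [], [], [], [], [], [], [], [(0, 14)], [(0, 20), (20, 15)], [(0, 20), (20, 15), (15, 16)], [(0, 17)], [(0, 20), (20, 18)], [(0, 17), (17, 19)], [(0, 20)], [(0, 20), (20, 15), (15, 21)], [(0, 14), (14, 22)], [(0, 20), (20, 15), (15, 16), (16, 23)], [], []]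

def trK2 : List (Fin 26 × Fin 26) :=
  [(0, 20), (20, 15), (0, 14), (0, 17), (20, 18), (15, 16), (15, 21), (14, 22), (17, 19), (16, 23)]

def rsK2 : List (List (Fin 26 × Fin 26)) :=
  [[(0, 20), (20, 15), (15, 0)], [(21, 15), (15, 0), (0, 21)], [(16, 15), (15, 21), (21, 16)], [(20, 0), (0, 17), (17, 20)], [(0, 14), (14, 17), (17, 0)], [(18, 20), (20, 17), (17, 18)], [(18, 17), (17, 19), (19, 18)], [(15, 20), (20, 18), (18, 15)], [(20, 14), (14, 0), (0, 20)], [(14, 22), (22, 17), (17, 14)], [(15, 18), (18, 0), (0, 15)], [(15, 14), (14, 20), (20, 15)], [(14, 15), (15, 16), (16, 14)], [(17, 22), (22, 19), (19, 17)], [(14, 16), (16, 22), (22, 14)], [(21, 0), (0, 18), (18, 21)], [(19, 21), (21, 18), (18, 19)], [(16, 21), (21, 19), (19, 16)], [(16, 19), (19, 23), (23, 16)], [(22, 16), (16, 23), (23, 22)]]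

theorem cK2 : cert K2 0 (fun v => peK2.getD v.val []) loK2 trK2 rsK2 = true := by
  decide +kernel

def loL1 : List (List (Fin 26 × Fin 26)) :=
  [[(0, 9), (9, 2), (2, 0)], [(0, 1), (1, 3), (3, 0)]]

def peL1 : List (List (Fin 26 × Fin 26)) :=
  [[], [(0, 1)], [(0, 9), (9, 2)], [(0, 1), (1, 3)], [(0, 1), (1, 4)], [(0, 5)], [(0, 9), (9, 6)], [(0, 1), (1, 3), (3, 7)], [(0, 5), (5, 8)], [(0, 9)], [(0, 9), (9, 2), (2, 10)], [(0, 1), (1, 3), (3, 11)], [(0, 1), (1, 12)], [(0, 1), (1, 4), (4, 13)], [], [], [], [], [], [], [], [], [], [], [], []]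

def trL1 : List (Fin 26 × Fin 26) :=
  [(0, 9), (9, 2), (0, 1), (1, 3), (0, 5), (9, 6), (2, 10), (1, 4), (1, 12), (3, 7), (3, 11), (5, 8), (4, 13)]

def rsL1 : List (List (Fin 26 × Fin 26)) :=
  [[(0, 9), (9, 2), (2, 0)], [(0, 1), (1, 3), (3, 0)], [(1, 4), (4, 12), (12, 1)], [(3, 7), (7, 0), (0, 3)], [(11, 3), (3, 0), (0, 11)], [(10, 2), (2, 0), (0, 10)], [(9, 0), (0, 5), (5, 9)], [(0, 1), (1, 5), (5, 0)], [(6, 9), (9, 5), (5, 6)], [(2, 9), (9, 6), (6, 2)], [(1, 3), (3, 4), (4, 1)], [(9, 1), (1, 0), (0, 9)], [(12, 4), (4, 13), (13, 12)], [(1, 12), (12, 5), (5, 1)], [(0, 7), (7, 11), (11, 0)], [(4, 3), (3, 11), (11, 4)], [(2, 6), (6, 0), (0, 2)], [(2, 1), (1, 9), (9, 2)], [(1, 2), (2, 3), (3, 1)], [(5, 12), (12, 8), (8, 5)], [(10, 0), (0, 6), (6, 10)], [(3, 2), (2, 10), (10, 3)], [(12, 13), (13, 8), (8, 12)], [(4, 8), (8, 13), (13, 4)], [(4, 11), (11, 8), (8, 4)], [(3, 10),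 (10, 7), (7, 3)], [(8, 11), (11, 7), (7, 8)], [(7, 10), (10, 6), (6, 7)], [(7, 5), (5, 8), (8, 7)]]

theorem cL1 : cert L1 0 (fun v => peL1.getD v.val []) loL1 trL1 rsL1 = true := by
  decide +kernel

def loL2 : List (List (Fin 26 × Fin 26)) :=
  [[(0, 20), (20, 15), (15, 0)], [(0, 14), (14, 16), (16, 0)]]

def peL2 : List (List (Fin 26 × Fin 26)) :=
  [[], [], [], [], [], [], [], [], [], [], [], [], [], [], [(0, 14)], [(0, 20), (20, 15)], [(0, 14), (14, 16)], [(0, 17)], [(0, 20), (20, 18)], [(0, 14), (14, 16), (16, 19)], [(0, 20)], [(0, 20), (20, 15), (15, 21)], [(0, 14), (14, 22)], [], [], []]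

def trL2 : List (Fin 26 × Fin 26) :=
  [(0, 20), (20, 15), (0, 14), (14, 16), (0, 17), (20, 18), (15, 21), (14, 22), (16, 19)]

def rsL2 : List (List (Fin 26 × Fin 26)) :=
  [[(0, 20), (20, 15), (15, 0)], [(0, 14), (14, 16), (16, 0)], [(16, 19), (19, 0), (0, 16)], [(14, 16), (16, 22), (22, 14)], [(21, 15), (15, 0), (0, 21)], [(20, 0), (0, 17), (17, 20)], [(0, 14), (14, 17), (17, 0)], [(18, 20), (20, 17), (17, 18)], [(15, 20), (20, 18), (18, 15)], [(20, 14), (14, 0), (0, 20)], [(22, 16), (16, 0), (0, 22)], [(14, 22), (22, 17), (17, 14)], [(15, 18), (18, 0), (0, 15)], [(15, 14), (14, 20), (20, 15)], [(14, 15), (15, 16), (16, 14)], [(22, 0), (0, 19), (19, 22)], [(17, 22), (22, 19), (19, 17)], [(21, 0), (0, 18), (18, 21)], [(16, 15), (15, 21), (21, 16)], [(18, 17), (17, 19), (19, 18)], [(19, 21), (21, 18), (18, 19)]]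

theorem cL2 : cert L2 0 (fun v => peL2.getD v.val []) loL2 trL2 rsL2 = true := by
  decide +kernel

theorem deform : chk ((K1 ++ K2).map tl) mv ((L1 ++ L2).map tl) = true := by
  decide +kernel

theorem connK : conn ((K1 ++ K2).map tl) = true := by
  decide +kernel

theorem connL : conn ((L1 ++ L2).map tl) = true := by
  decide +kernel

theorem meetK : meet K1 K2 0 = true := by
  decide +kernel

theorem meetL : meet L1 L2 0 = true := by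
  decide +kernel

end Pool.Agent.Lib.MP_e11f15_gt
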