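import Mathlib

open Set

namespace Pool.Agent.Lib.MP_e11f15_gt

variable {E F : Type} [AddCommGroup E] [Module ℝ E] [AddCommGroup F] [Module ℝ F]

/-- A compact polyhedron: a finite union of convex hulls of finite sets. -/
def IsPolyhedron (P : Set E) : Prop :=
  ∃ T : Finset (Finset E), P = ⋃ s ∈ T, convexHull ℝ (s : Set E)

/-- A compact 2-dimensional polyhedron: a nonempty finite union of nondegenerate triangles. -/
def IsTwoPolyhedron (P : Set E) : Prop :=
  ∃ T : Finset (Fin 3 → E), T.Nonempty ∧ (∀ t ∈ T, AffineIndependent ℝ t) ∧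
    P = ⋃ t ∈ T, convexHull ℝ (range t)

/-- `f` is piecewise linear on the polyhedron `P`: affine on each of finitely many convex cells
whose union is `P`. -/
def IsPLOn (f : E → F) (P : Set E) : Prop :=
  ∃ T : Finset (Finset E), P = (⋃ s ∈ T, convexHull ℝ (s : Set E)) ∧
    ∀ s ∈ T, ∃ g : E →ᵃ[ℝ] F, EqOn f g (convexHull ℝ (s : Set E))

/-- `P` and `Q` are p.l. homeomorphic. -/
def PLHomeomorphic (P : Set E) (Q : Set F) : Prop :=
  ∃ f : E → F, IsPLOn f P ∧ BijOn f P Q

/-- The union of all facets of the standard `(n+1)`-simplex but the one opposite vertex `0`. -/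
def horn (n : ℕ) : Set (Fin (n + 2) → ℝ) :=
  {x ∈ stdSimplex ℝ (Fin (n + 2)) | ∃ i : Fin (n + 1), x i.succ = 0}

/-- Elementary p.l. collapse: `P = Q ∪ B` where the pair `(B, B ∩ Q)` is p.l. homeomorphic to
(simplex, horn), that is to a p.l. ball and a face of it. -/
def ElemCollapse (P Q : Set E) : Prop :=
  IsPolyhedron Q ∧ ∃ (n : ℕ) (h : (Fin (n + 2) → ℝ) → E),
    IsPLOn h (stdSimplex ℝ (Fin (n + 2))) ∧ InjOn h (stdSimplex ℝ (Fin (n + 2))) ∧
    P = Q ∪ h '' stdSimplex ℝ (Fin (n + 2)) ∧
    Q ∩ h '' stdSimplex ℝ (Fin (n + 2)) = h '' horn n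

/-- `P` collapses to `Q`: a finite sequence of elementary collapses. -/
def Collapses (P Q : Set E) : Prop := Relation.ReflTransGen ElemCollapse P Q

/-- `P` and `Q` are related by a finite sequence of elementary expansions and collapses. -/
def Deforms (P Q : Set E) : Prop :=
  Relation.ReflTransGen (fun A B => ElemCollapse A B ∨ ElemCollapse B A) P Q

end Pool.Agent.Lib.MP_e11f15_gt
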