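import Pool.Agent.Lib.MP_e11f15_gt.Data

open Set Real

namespace Pool.Agent.Lib.MP_e11f15_gt

theorem real_append_left {V : Type} [Fintype V] (A B : List (V × V × V)) :
    real (A.map tl) ⊆ real ((A ++ B).map tl) := by
  rintro x ⟨s, hs, hx⟩
  exact ⟨s, by rw [List.map_append]; exact List.mem_append_left _ hs, hx⟩

theorem real_append_right {V : Type} [Fintype V] (A B : List (V × V × V)) :
    real (B.map tl) ⊆ real ((A ++ B).map tl) := by
  rintro x ⟨s, hs, hx⟩
  exact ⟨s, by rw [List.map_append]; exact List.mem_append_right _ hs, hx⟩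

def NK : Fin 3 → List (Fin 26) := ![[10, 2, 6], [11, 3, 7], [12, 4, 8]]
def lK : Fin 3 → List (Fin 26 × Fin 26) :=
  ![[(0, 9), (9, 2), (2, 0)], [(0, 1), (1, 3), (3, 0)], [(0, 1), (1, 4), (4, 0)]]
def NL : Fin 4 → List (Fin 26) := ![[10, 2, 6], [11, 3, 7], [21, 15, 18], [22, 16, 19]]
def lL : Fin 4 → List (Fin 26 × Fin 26) :=
  ![[(0, 9), (9, 2), (2, 0)], [(0, 1), (1, 3), (3, 0)],
    [(0, 20), (20, 15), (15, 0)], [(0, 14), (14, 16), (16, 0)]]

theorem noK : ¬ ∃ K' : Set ((Fin 26 → ℝ) × ℝ), PLHomeomorphic (real ((K1 ++ K2).map tl)) K' ∧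
    Collapses (real ((L1 ++ L2).map tl) ×ˢ Icc 0 1) K' := by
  rintro ⟨K', h1, h2⟩
  obtain ⟨f, hf, hi, hm, hext⟩ := setup h1 h2
  have hN : ∀ j, ((0 : Fin 26) :: NK j).Nodup := by decide +kernel
  choose F hF hFf using fun j => hext (cls 0 (NK j)) (cls_cont (hN j) (by revert j; decide +kernel))
  have hs := real_append_left K1 K2
  rcases block meetL rK1 (hf.mono hs) (hi.mono hs) (hm.mono_left hs) with h | h
  · have := rank_le cL1 NK lK hN (by decide +kernel) (by decide +kernel) (hf.mono hs) h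
      (fun j => (hF j).mono (prod_mono_left (real_append_left _ _))) fun j => (hFf j).mono hs
    exact absurd this (by decide)
  · have := rank_le cL2 NK lK hN (by decide +kernel) (by decide +kernel) (hf.mono hs) h
      (fun j => (hF j).mono (prod_mono_left (real_append_right _ _))) fun j => (hFf j).mono hs
    exact absurd this (by decide)

theorem noL : ¬ ∃ L' : Set ((Fin 26 → ℝ) × ℝ), PLHomeomorphic (real ((L1 ++ L2).map tl)) L' ∧
    Collapses (real ((K1 ++ K2).map tl) ×ˢ Icc 0 1) L' := by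
  rintro ⟨L', h1, h2⟩
  obtain ⟨f, hf, hi, hm, hext⟩ := setup h1 h2
  have hN : ∀ j, ((0 : Fin 26) :: NL j).Nodup := by decide +kernel
  choose F hF hFf using fun j => hext (cls 0 (NL j)) (cls_cont (hN j) (by revert j; decide +kernel))
  have hs1 := real_append_left L1 L2
  have hs2 := real_append_right L1 L2
  rcases block meetK rL1 (hf.mono hs1) (hi.mono hs1) (hm.mono_left hs1) with h | h
  swap
  · have := rank_le cK2 (fun j : Fin 2 => NL (Fin.castAdd 2 j)) (fun j => lL (Fin.castAdd 2 j))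
      (fun j => hN _) (by decide +kernel) (by decide +kernel) (hf.mono hs1) h
      (fun j => (hF _).mono (prod_mono_left (real_append_right _ _))) fun j => (hFf _).mono hs1
    exact absurd this (by decide)
  rcases block meetK rL2 (hf.mono hs2) (hi.mono hs2) (hm.mono_left hs2) with h' | h'
  swap
  · have := rank_le cK2 (fun j : Fin 2 => NL (Fin.natAdd 2 j)) (fun j => lL (Fin.natAdd 2 j))
      (fun j => hN _) (by decide +kernel) (by decide +kernel) (hf.mono hs2) h'
      (fun j => (hF _).mono (prod_mono_left (real_append_right _ _))) fun j => (hFf _).mono hs2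
    exact absurd this (by decide)
  have hm' : MapsTo f (real ((L1 ++ L2).map tl)) (real (K1.map tl) ×ˢ Icc 0 1) := by
    rintro x ⟨s, hs, hx⟩
    rw [List.map_append, List.mem_append] at hs
    rcases hs with hs | hs
    · exact h ⟨s, hs, hx⟩
    · exact h' ⟨s, hs, hx⟩
  have := rank_le cK1 NL lL hN (by decide +kernel) (by decide +kernel) hf hm'
    (fun j => (hF j).mono (prod_mono_left (real_append_left _ _))) hFf
  exact absurd this (by decide)

theorem ndK : ((K1 ++ K2).all fun t => decide (tl t).Nodup) = true := by decide +kernel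
theorem ndL : ((L1 ++ L2).all fun t => decide (tl t).Nodup) = true := by decide +kernel

theorem main : ∃ (N : ℕ) (K L : Set (Fin N → ℝ)),
    IsTwoPolyhedron K ∧ IsTwoPolyhedron L ∧ IsConnected K ∧ IsConnected L ∧ Deforms K L ∧
    (¬ ∃ L' : Set ((Fin N → ℝ) × ℝ), PLHomeomorphic L L' ∧ Collapses (K ×ˢ Icc 0 1) L') ∧
    (¬ ∃ K' : Set ((Fin N → ℝ) × ℝ), PLHomeomorphic K K' ∧ Collapses (L ×ˢ Icc 0 1) K') :=
  ⟨26, _, _, twoPoly (by simp [K1]) (fun t ht => of_decide_eq_true (List.all_eq_true.1 ndK t ht)),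
    twoPoly (by simp [L1]) (fun t ht => of_decide_eq_true (List.all_eq_true.1 ndL t ht)), conn_spec _ connK, conn_spec _ connL,
    chk_spec _ _ _ deform, noL, noK⟩

end Pool.Agent.Lib.MP_e11f15_gt
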