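import Pool.Agent.Lib.MP_e11f15_gt.Rigid

open Set Real

set_option linter.unusedSectionVars false

namespace Pool.Agent.Lib.MP_e11f15_gt

variable {V : Type} [Fintype V] [DecidableEq V]

def walk : V → List (V × V) → V → Bool
  | a, [], b => decide (a = b)
  | a, e :: l, b => decide (a = e.1) && walk e.2 l b

theorem walk_sum {M : Type*} [AddCommGroup M] (ψ : V → M) (l : List (V × V)) (b : V) :
    ∀ a, walk a l b = true → (l.map fun e => ψ e.2 - ψ e.1).sum = ψ b - ψ a := by
  induction l with
  | nil => intro a h; simp [walk] at h; simp [h]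
  | cons e l ih =>
    intro a h
    simp only [walk, Bool.and_eq_true, decide_eq_true_eq] at h
    rw [List.map_cons, List.sum_cons, ih _ h.2, h.1]
    abel

def isE (T : List (V × V × V)) (e : V × V) : Bool := cov1 [e.1, e.2] (T.map tl)

theorem isE_seg {T : List (V × V × V)} {e : V × V} (h : isE T e = true) :
    segment ℝ (ev e.1) (ev e.2) ⊆ real (T.map tl) :=
  (seg_sub (by simp) (by simp)).trans (cov1_spec h)

noncomputable def per (F : (V → ℝ) → Angle) (l : List (V × V)) : ℝ := (l.map (dl F)).sum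

theorem per_coe {T : List (V × V × V)} {F : (V → ℝ) → Angle} (hF : ContinuousOn F (real (T.map tl)))
    {l : List (V × V)} (hl : ∀ e ∈ l, isE T e = true) {a b : V} (hw : walk a l b = true) :
    (per F l : Angle) = F (ev b) - F (ev a) := by
  rw [← walk_sum (fun v => F (ev v)) l b a hw, per]
  have := map_list_sum Angle.coeHom (l.map (dl F))
  simp only [Angle.coe_coeHom] at this
  rw [this, List.map_map]
  congr 1
  exact List.map_congr_left fun e he => inc_coe (hF.mono (isE_seg (hl e he)))

theorem per_lift {T : List (V × V × V)} {F : (V → ℝ) → Angle} {G : (V → ℝ) → ℝ}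
    (hG : Lifts G F (real (T.map tl))) {l : List (V × V)} (hl : ∀ e ∈ l, isE T e = true) {a : V}
    (hw : walk a l a = true) : per F l = 0 := by
  have := walk_sum (fun v => G (ev v)) l a a hw
  rw [sub_self] at this
  rw [← this, per]
  congr 1
  exact List.map_congr_left fun e he => inc_eq (hG.mono (isE_seg (hl e he)))

theorem per_sum {ι : Type*} [Fintype ι] {T : List (V × V × V)} {F : ι → (V → ℝ) → Angle}
    (hF : ∀ j, ContinuousOn (F j) (real (T.map tl))) (n : ι → ℤ) {l : List (V × V)}
    (hl : ∀ e ∈ l, isE T e = true) :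
    per (fun x => ∑ j, n j • F j x) l = ∑ j, n j * per (F j) l := by
  induction l with
  | nil => simp [per]
  | cons e l ih =>
    have h1 := ih fun e he => hl e (List.mem_cons_of_mem _ he)
    simp only [per, List.map_cons, List.sum_cons] at h1 ⊢
    rw [h1, dl, inc_sum n fun j => (hF j).mono (isE_seg (hl e List.mem_cons_self)),
      ← Finset.sum_add_distrib]
    exact Finset.sum_congr rfl fun j _ => by rw [mul_add]; rfl

theorem per_congr {T : List (V × V × V)} {F F' : (V → ℝ) → Angle}
    (hF : ContinuousOn F (real (T.map tl))) (he : EqOn F F' (real (T.map tl)))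
    {l : List (V × V)} (hl : ∀ e ∈ l, isE T e = true) : per F l = per F' l := by
  unfold per
  congr 1
  exact List.map_congr_left fun e h =>
    inc_congr (hF.mono (isE_seg (hl e h))) (he.mono (isE_seg (hl e h)))

def known (Z : List (V × V)) (e : V × V) : Bool := Z.contains e || Z.contains e.swap

def clo (r : List (V × V)) : Bool :=
  match r with
  | [] => true
  | e :: _ => walk e.1 r e.1

def prop (T : List (V × V × V)) (rels : List (List (V × V))) :
    List (V × V) → List (List (V × V)) → Bool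
  | Z, [] => T.all fun t => known Z (t.1, t.2.1) && known Z (t.1, t.2.2)
  | Z, r :: rs => rels.contains r && clo r &&
    match r.filter fun e => !known Z e with
    | [e] => isE T e && prop T rels (e :: Z) rs
    | _ => false

theorem prop_spec {T : List (V × V × V)} {rels : List (List (V × V))} {δ : V × V → ℝ} {ψ : V → ℝ}
    (hanti : ∀ e, isE T e = true → δ e.swap = -δ e) (hrel : ∀ r ∈ rels, (r.map δ).sum = 0)
    (rs : List (List (V × V))) : ∀ Z, prop T rels Z rs = true →
      (∀ e, known Z e = true → δ e = ψ e.2 - ψ e.1) →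
      ∀ t ∈ T, δ (t.1, t.2.1) = ψ t.2.1 - ψ t.1 ∧ δ (t.1, t.2.2) = ψ t.2.2 - ψ t.1 := by
  induction rs with
  | nil =>
    intro Z h hZ t ht
    have := List.all_eq_true.1 h t ht
    rw [Bool.and_eq_true] at this
    exact ⟨hZ _ this.1, hZ _ this.2⟩
  | cons r rs ih =>
    intro Z h hZ
    simp only [prop, Bool.and_eq_true, List.contains_iff_mem] at h
    obtain ⟨⟨hr, hc⟩, h⟩ := h
    split at h
    · rename_i e he
      rw [Bool.and_eq_true] at h
      have h0 : (r.map fun e => ψ e.2 - ψ e.1).sum = 0 := by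
        cases r with
        | nil => simp
        | cons e' l => rw [walk_sum ψ _ _ _ hc, sub_self]
      have h1 : (r.map fun e => δ e - (ψ e.2 - ψ e.1)).sum = 0 := by
        have : ∀ l : List (V × V), (l.map fun e => δ e - (ψ e.2 - ψ e.1)).sum =
            (l.map δ).sum - (l.map fun e => ψ e.2 - ψ e.1).sum := by
          intro l
          induction l with
          | nil => simp
          | cons e l ih => simp only [List.map_cons, List.sum_cons, ih]; ring
        rw [this, hrel r hr, h0, sub_zero]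
      have h2 : ∀ l : List (V × V), (l.map fun e => δ e - (ψ e.2 - ψ e.1)).sum =
          ((l.filter fun e => !known Z e).map fun e => δ e - (ψ e.2 - ψ e.1)).sum := by
        intro l
        induction l with
        | nil => simp
        | cons e l ih =>
          by_cases hk : known Z e = true
          · simp [hk, ih, hZ e hk]
          · simp [hk, ih]
      rw [h2, he] at h1
      have h3 : δ e = ψ e.2 - ψ e.1 := by simpa [sub_eq_zero] using h1
      refine ih _ h.2 fun e' he' => ?_
      by_cases hk : known Z e' = true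
      · exact hZ e' hk
      · simp only [known, List.contains_cons, Bool.or_eq_true, beq_iff_eq, not_or] at he' hk
        rcases he' with (h4 | h4) | (h4 | h4)
        · rw [h4, h3]
        · exact absurd h4 hk.1
        · have h5 : e' = e.swap := by rw [← h4, Prod.swap_swap]
          rw [h5, hanti e h.1, h3]
          simp
        · exact absurd h4 hk.2
    · exact absurd h (by simp)

def cert (T : List (V × V × V)) (w : V) (pe : V → List (V × V)) (loops : List (List (V × V)))
    (tree : List (V × V)) (rs : List (List (V × V))) : Bool :=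
  (T.all fun t => walk w (pe t.1) t.1 && (pe t.1).all (isE T)) && cov1 [w] (T.map tl) &&
  (tree.all fun e => isE T e && decide (pe e.2 = pe e.1 ++ [e])) &&
  (loops.all fun l => walk w l w && l.all (isE T)) &&
  prop T (loops ++ T.map ted) tree rs

theorem cert_loops {T : List (V × V × V)} {w : V} {pe : V → List (V × V)}
    {loops : List (List (V × V))} {tree : List (V × V)} {rs : List (List (V × V))}
    (h : cert T w pe loops tree rs = true) :
    ∀ l ∈ loops, walk w l w = true ∧ ∀ e ∈ l, isE T e = true := by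
  simp only [cert, Bool.and_eq_true, List.all_eq_true] at h
  exact h.1.2

theorem cert_spec {T : List (V × V × V)} {w : V} {pe : V → List (V × V)}
    {loops : List (List (V × V))} {tree : List (V × V)} {rs : List (List (V × V))}
    (h : cert T w pe loops tree rs = true) {F : (V → ℝ) × ℝ → Angle}
    (hF : ContinuousOn F (real (T.map tl) ×ˢ Icc 0 1))
    (hl : ∀ l ∈ loops, per (fun x => F (x, 0)) l = 0) :
    ∃ G, Lifts G F (real (T.map tl) ×ˢ Icc 0 1) := by
  classical
  simp only [cert, Bool.and_eq_true, List.all_eq_true, decide_eq_true_eq] at h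
  obtain ⟨⟨⟨⟨hpe, -⟩, htree⟩, -⟩, hprop⟩ := h
  set F0 : (V → ℝ) → Angle := fun x => F (x, 0) with hF0def
  have hF0 : ContinuousOn F0 (real (T.map tl)) :=
    hF.comp (f := fun x => (x, (0 : ℝ))) (by fun_prop) fun x hx => ⟨hx, by simp⟩
  let ψ : V → ℝ := fun v => (F0 (ev w)).toReal + per F0 (pe v)
  have hanti : ∀ e, isE T e = true → dl F0 e.swap = -dl F0 e :=
    fun e he => inc_swap (hF0.mono (isE_seg he))
  have key := prop_spec (δ := dl F0) (ψ := ψ) hanti (fun r hr => by
      rcases List.mem_append.1 hr with hr | hr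
      · exact hl r hr
      · obtain ⟨t, ht, rfl⟩ := List.mem_map.1 hr
        exact dl_tri (hF0.mono (spx_subset_real (List.mem_map_of_mem ht)))) rs tree hprop (by
      have h1 : ∀ e ∈ tree, dl F0 e = ψ e.2 - ψ e.1 := by
        intro e he
        simp [ψ, (htree e he).2, per]
      intro e he
      simp only [known, Bool.or_eq_true, List.contains_iff_mem] at he
      rcases he with he | he
      · exact h1 e he
      · have h2 := hanti _ (htree _ he).1
        rw [Prod.swap_swap, h1 _ he] at h2
        rw [h2]; simp)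
  have hex : ∀ t : V × V × V, ∃ G : (V → ℝ) × ℝ → ℝ, t ∈ T →
      Lifts G F (spx (tl t) ×ˢ Icc 0 1) ∧ ∀ v ∈ tl t, G (ev v, 0) = ψ v := by
    intro t
    by_cases ht : t ∈ T
    swap
    · exact ⟨0, fun h => absurd h ht⟩
    have hsub := spx_subset_real (List.mem_map_of_mem (f := tl) ht)
    obtain ⟨G, hG, hG0⟩ := exists_lift ((spx_convex (tl t)).prod (convex_Icc (0 : ℝ) 1))
      (hF.mono (prod_mono_left hsub)) (a := (ev t.1, 0)) ⟨ev_mem (by simp [tl]), by simp⟩
      (r := ψ t.1) (by
        simp only [ψ, Angle.coe_add, Angle.coe_toReal]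
        rw [per_coe hF0 (hpe t ht).2 (hpe t ht).1]
        simp [hF0def])
    have hG' : Lifts (fun x => G (x, 0)) F0 (spx (tl t)) :=
      hG.comp (f := fun x => (x, (0 : ℝ))) (by fun_prop) fun x hx => ⟨hx, by simp⟩
    refine ⟨G, fun _ => ⟨hG, fun v hv => ?_⟩⟩
    have h1 := inc_eq (hG'.mono (seg_sub (u := t.1) (by simp [tl]) hv))
    simp only [tl, List.mem_cons, List.not_mem_nil, or_false] at hv
    rcases hv with rfl | rfl | rfl
    · exact hG0
    · have := (key t ht).1
      simp only [dl] at this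
      linarith
    · have := (key t ht).2
      simp only [dl] at this
      linarith
  choose G hG using hex
  have hagree : ∀ t ∈ T, ∀ t' ∈ T, ∀ y ∈ spx (tl t) ×ˢ Icc (0 : ℝ) 1,
      y ∈ spx (tl t') ×ˢ Icc (0 : ℝ) 1 → G t y = G t' y := by
    intro t ht t' ht' y hy hy'
    have hv : ∃ v, y.1 v ≠ 0 := by
      by_contra hcon
      push Not at hcon
      have := hy.1.1.2
      simp [hcon] at this
    obtain ⟨v, hv⟩ := hv
    have h1 : v ∈ tl t := by_contra fun h => hv (hy.1.2 v h)
    have h2 : v ∈ tl t' := by_contra fun h => hv (hy'.1.2 v h)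
    refine ((hG t ht).1.mono inter_subset_left).eqOn ((hG t' ht').1.mono inter_subset_right)
      (((spx_convex _).prod (convex_Icc (0 : ℝ) 1)).inter
        ((spx_convex _).prod (convex_Icc (0 : ℝ) 1))).isPreconnected (a := (ev v, 0))
      ⟨⟨ev_mem h1, by simp⟩, ev_mem h2, by simp⟩ ?_ ⟨hy, hy'⟩
    rw [(hG t ht).2 v h1, (hG t' ht').2 v h2]
  let G0 : (V → ℝ) × ℝ → ℝ := fun y =>
    if h : ∃ t ∈ T, y ∈ spx (tl t) ×ˢ Icc (0 : ℝ) 1 then G h.choose y else 0
  have hG0 : ∀ t ∈ T, EqOn G0 (G t) (spx (tl t) ×ˢ Icc (0 : ℝ) 1) := by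
    intro t ht y hy
    have h : ∃ t ∈ T, y ∈ spx (tl t) ×ˢ Icc (0 : ℝ) 1 := ⟨t, ht, hy⟩
    simp only [G0, dif_pos h]
    exact hagree _ h.choose_spec.1 t ht y h.choose_spec.2 hy
  have e : real (T.map tl) ×ˢ Icc (0 : ℝ) 1 = {y | ∃ t ∈ T, y ∈ spx (tl t) ×ˢ Icc (0 : ℝ) 1} := by
    ext y
    simp only [real, mem_prod, mem_ofPred_eq, List.mem_map, exists_exists_and_eq_and]
    exact ⟨fun ⟨⟨t, h1, h2⟩, h3⟩ => ⟨t, h1, h2, h3⟩, fun ⟨t, h1, h2, h3⟩ => ⟨⟨t, h1, h2⟩, h3⟩⟩
  rw [e]
  refine ⟨G0, (contOn_list T (fun t => spx (tl t) ×ˢ Icc (0 : ℝ) 1)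
    (fun t => (spx_closed _).prod isClosed_Icc) fun t ht => (hG t ht).1.1.congr (hG0 t ht)).2, ?_⟩
  rintro y ⟨t, ht, hy⟩
  rw [hG0 t ht hy]
  exact (hG t ht).1.2 y hy

open Classical in
noncomputable def cls (w : V) (N : List V) (x : V → ℝ) : Angle :=
  if ((w :: N).map x).sum = 1 then ((2 * π * x w : ℝ) : Angle) else 0

def typ (w : V) (N s : List V) : Bool :=
  sub s (w :: N) || !s.contains w || N.all fun v => !s.contains v

theorem cls_star {w : V} {N s : List V} (hN : (w :: N).Nodup) (h : ∀ v ∈ s, v ∈ w :: N) :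
    Lifts (fun x => 2 * π * x w) (cls w N) (spx s) :=
  ⟨by fun_prop, fun x hx => by rw [cls, if_pos (sum_spx hN (spx_mono h hx))]⟩

theorem cls_zero {w : V} {N s : List V} (h : w ∉ s ∨ ∀ v ∈ N, v ∉ s) :
    Lifts (fun _ => 0) (cls w N) (spx s) := by
  refine ⟨by fun_prop, fun x hx => ?_⟩
  unfold cls
  split_ifs with h1
  · rcases h with h | h
    · rw [hx.2 w h]; simp
    · have : (N.map x).sum = 0 := List.sum_eq_zero fun y hy => by
        obtain ⟨v, hv, rfl⟩ := List.mem_map.1 hy
        exact hx.2 v (h v hv)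
      rw [List.map_cons, List.sum_cons, this, add_zero] at h1
      rw [h1]; simp
  · simp

theorem cls_cont {w : V} {N : List V} {T : List (List V)} (hN : (w :: N).Nodup)
    (h : ∀ s ∈ T, typ w N s = true) : ContinuousOn (cls w N) (real T) := by
  refine (contOn_list T spx spx_closed fun s hs => ?_).2
  have := h s hs
  simp only [typ, Bool.or_eq_true, sub_iff, Bool.not_eq_true', List.all_eq_true] at this
  rcases this with (h1 | h1) | h1
  · exact (cls_star hN h1).continuousOn
  · exact (cls_zero (Or.inl (by simpa using h1))).continuousOn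
  · exact (cls_zero (Or.inr (by simpa using h1))).continuousOn

def val (w : V) (N : List V) (e : V × V) : ℤ :=
  if e.1 ∈ w :: N ∧ e.2 ∈ w :: N then (if e.2 = w then 1 else 0) - (if e.1 = w then 1 else 0)
  else 0

theorem dl_cls {w : V} {N : List V} (hN : (w :: N).Nodup) (e : V × V) :
    dl (cls w N) e = 2 * π * val w N e := by
  have hs := seg_sub (s := [e.1, e.2]) (u := e.1) (v := e.2) (by simp) (by simp)
  unfold val
  by_cases h : e.1 ∈ w :: N ∧ e.2 ∈ w :: N
  · rw [if_pos h, dl, inc_eq ((cls_star hN (by simpa using h)).mono hs)]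
    simp only [Pi.single_apply, eq_comm (a := w)]
    split_ifs <;> simp
  · rw [if_neg h, dl, inc_eq ((cls_zero ?_).mono hs)]
    · simp
    have hw : w ∉ N := (List.nodup_cons.1 hN).1
    by_cases h1 : w ∈ [e.1, e.2]
    · right
      intro v hv hv'
      apply h
      simp only [List.mem_cons, List.not_mem_nil, or_false] at h1 hv' ⊢
      rcases h1 with h1 | h1 <;> rcases hv' with h2 | h2
      · exact absurd (h1 ▸ h2 ▸ hv) hw
      · exact ⟨Or.inl h1.symm, Or.inr (h2 ▸ hv)⟩
      · exact ⟨Or.inr (h2 ▸ hv), Or.inl h1.symm⟩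
      · exact absurd (h1 ▸ h2 ▸ hv) hw
    · exact Or.inl h1

theorem per_cls {w : V} {N : List V} (hN : (w :: N).Nodup) (l : List (V × V)) :
    per (cls w N) l = 2 * π * ((l.map (val w N)).sum : ℤ) := by
  induction l with
  | nil => simp [per]
  | cons e l ih =>
    simp only [per, List.map_cons, List.sum_cons] at ih ⊢
    rw [ih, dl_cls hN]
    push_cast
    ring

theorem rank_le {T : List (V × V × V)} {w : V} {pe : V → List (V × V)}
    {loops : List (List (V × V))} {tree : List (V × V)} {rs : List (List (V × V))}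
    (h : cert T w pe loops tree rs = true) {Y : List (V × V × V)} {r : ℕ} {w' : V}
    (N : Fin r → List V) (ℓ : Fin r → List (V × V)) (hN : ∀ j, (w' :: N j).Nodup)
    (hℓ : ∀ i, walk w' (ℓ i) w' = true ∧ ∀ e ∈ ℓ i, isE Y e = true)
    (hval : ∀ i j, ((ℓ i).map (val w' (N j))).sum = if i = j then 1 else 0)
    {f : (V → ℝ) → (V → ℝ) × ℝ} (hf : ContinuousOn f (real (Y.map tl)))
    (hm : MapsTo f (real (Y.map tl)) (real (T.map tl) ×ˢ Icc 0 1))
    {F : Fin r → (V → ℝ) × ℝ → Angle} (hF : ∀ j, ContinuousOn (F j) (real (T.map tl) ×ˢ Icc 0 1))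
    (hFf : ∀ j, EqOn (F j ∘ f) (cls w' (N j)) (real (Y.map tl))) : r ≤ loops.length := by
  have hF0 : ∀ j, ContinuousOn (fun x => F j (x, 0)) (real (T.map tl)) := fun j =>
    (hF j).comp (f := fun x => (x, (0 : ℝ))) (by fun_prop) fun x hx => ⟨hx, by simp⟩
  have hl := cert_loops h
  have hint : ∀ j (i : Fin loops.length), ∃ k : ℤ,
      per (fun x => F j (x, 0)) (loops.get i) = 2 * π * k := by
    intro j i
    have h1 := hl _ (List.get_mem loops i)
    have h2 := per_coe (hF0 j) h1.2 h1.1
    rw [sub_self, ← Angle.coe_zero, Angle.angle_eq_iff_two_pi_dvd_sub] at h2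
    simpa using h2
  choose a ha using hint
  have hli : LinearIndependent ℤ a := by
    rw [Fintype.linearIndependent_iff]
    intro n hn i
    have hc : ContinuousOn (fun y => ∑ j, n j • F j y) (real (T.map tl) ×ˢ Icc 0 1) :=
      continuousOn_finsetSum _ fun j _ => (hF j).zsmul (n j)
    obtain ⟨G, hG⟩ := cert_spec h hc fun l hl' => by
      obtain ⟨k, rfl⟩ := List.mem_iff_get.1 hl'
      rw [per_sum hF0 n (hl _ hl').2]
      simp only [ha]
      have h1 := congr_fun hn k
      simp only [Finset.sum_apply, Pi.smul_apply, smul_eq_mul, Pi.zero_apply] at h1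
      have h2 : ∑ j, (n j : ℝ) * (a j k) = 0 := by exact_mod_cast h1
      calc _ = 2 * π * ∑ j, (n j : ℝ) * (a j k) := by
            rw [Finset.mul_sum]; exact Finset.sum_congr rfl fun j _ => by ring
        _ = 0 := by rw [h2, mul_zero]
    have h1 := per_lift (hG.comp hf hm) (hℓ i).2 (hℓ i).1
    have hFc : ∀ j, ContinuousOn (F j ∘ f) (real (Y.map tl)) := fun j => (hF j).comp hf hm
    have h2 := per_sum hFc n (hℓ i).2
    have h3 : ∀ j, per (F j ∘ f) (ℓ i) = 2 * π * ((if i = j then 1 else 0 : ℤ) : ℝ) := fun j => by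
      rw [per_congr (hFc j) (hFf j) (hℓ i).2, per_cls (hN j), hval]
    simp only [h3] at h2
    have h4 : per (fun x => ∑ j, n j • (F j ∘ f) x) (ℓ i) = 0 := h1
    rw [h4] at h2
    simp only [Int.cast_ite, Int.cast_one, Int.cast_zero, mul_ite, mul_one, mul_zero,
      Finset.sum_ite_eq, Finset.mem_univ, if_true] at h2
    have h5 : (n i : ℝ) = 0 := by
      rcases mul_eq_zero.1 h2.symm with h | h
      · exact h
      · exact absurd h (by positivity)
    exact_mod_cast h5
  simpa using hli.fintype_card_le_finrank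

theorem setup {X Y : List (V × V × V)} {L' : Set ((V → ℝ) × ℝ)}
    (h1 : PLHomeomorphic (real (Y.map tl)) L') (h2 : Collapses (real (X.map tl) ×ˢ Icc 0 1) L') :
    ∃ f : (V → ℝ) → (V → ℝ) × ℝ, ContinuousOn f (real (Y.map tl)) ∧ InjOn f (real (Y.map tl)) ∧
      MapsTo f (real (Y.map tl)) (real (X.map tl) ×ˢ Icc 0 1) ∧
      ∀ C : (V → ℝ) → Angle, ContinuousOn C (real (Y.map tl)) →
        ∃ F, ContinuousOn F (real (X.map tl) ×ˢ Icc 0 1) ∧ EqOn (F ∘ f) C (real (Y.map tl)) := by
  obtain ⟨f, hf, hb⟩ := h1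
  obtain ⟨h3, h4⟩ := h2.extend (Z := Angle)
  have hc := hf.continuousOn
  refine ⟨f, hc, hb.injOn, hb.mapsTo.mono_right h3, fun C hC => ?_⟩
  have h5 := contOn_invFunOn (real_compact _) hc hb.injOn
  rw [hb.image_eq] at h5
  obtain ⟨F, hF, hF'⟩ := h4 (C ∘ Function.invFunOn f (real (Y.map tl)))
    (hC.comp h5 fun y hy => Function.invFunOn_mem (hb.surjOn hy))
  refine ⟨F, hF, fun x hx => ?_⟩
  simp only [Function.comp_apply]
  rw [hF' (hb.mapsTo hx), Function.comp_apply, hb.injOn.leftInvOn_invFunOn hx]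

def meet (X1 X2 : List (V × V × V)) (w : V) : Bool :=
  X1.all fun s => X2.all fun t => (tl s).all fun v => decide (v = w) || !(tl t).contains v

theorem block {X1 X2 T : List (V × V × V)} {w a b c d : V} {ds : List (V × V × V × V)}
    (hm : meet X1 X2 w = true) (h : chkr T [[a, b, c]] ((a, b, c, d) :: ds) = true)
    {f : (V → ℝ) → (V → ℝ) × ℝ} (hf : ContinuousOn f (real (T.map tl)))
    (hi : InjOn f (real (T.map tl)))
    (hX : MapsTo f (real (T.map tl)) (real ((X1 ++ X2).map tl) ×ˢ Icc 0 1)) :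
    MapsTo f (real (T.map tl)) (real (X1.map tl) ×ˢ Icc 0 1) ∨
      MapsTo f (real (T.map tl)) (real (X2.map tl) ×ˢ Icc 0 1) := by
  have hT := (real_compact (T.map tl)).isClosed
  have hw : ∀ x ∈ real (X1.map tl), x ∈ real (X2.map tl) → x = ev w := by
    rintro x ⟨_, hs0, hx⟩ ⟨_, ht0, hx'⟩
    obtain ⟨s, hs, rfl⟩ := List.mem_map.1 hs0
    obtain ⟨t, ht, rfl⟩ := List.mem_map.1 ht0
    have h1 := List.all_eq_true.1 (List.all_eq_true.1 hm s hs) t ht
    simp only [List.all_eq_true, Bool.or_eq_true, decide_eq_true_eq, Bool.not_eq_true'] at h1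
    have h2 : x ∈ spx [w] := ⟨hx.1, fun v hv => by
      by_cases h3 : v ∈ tl s
      · rcases h1 v h3 with h4 | h4
        · simp [h4] at hv
        · exact hx'.2 v (by simpa using h4)
      · exact hx.2 v h3⟩
    rw [spx_eq] at h2
    simpa using h2
  rcases rigid h
    (hf.preimage_isClosed_of_isClosed hT ((real_compact (X1.map tl)).isClosed.prod
      (isClosed_Icc (a := (0 : ℝ)) (b := 1))))
    (hf.preimage_isClosed_of_isClosed hT ((real_compact (X2.map tl)).isClosed.prod
      (isClosed_Icc (a := (0 : ℝ)) (b := 1))))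
    (φ := fun x => (f x).2) (fun x hx => by
      obtain ⟨⟨s, hs, hs'⟩, h2⟩ := hX hx
      rw [List.map_append, List.mem_append] at hs
      rcases hs with hs | hs
      · exact Or.inl ⟨hx, ⟨s, hs, hs'⟩, h2⟩
      · exact Or.inr ⟨hx, ⟨s, hs, hs'⟩, h2⟩) hf.snd
    (fun x hx y hy hxy => hi hx.1 hy.1 (Prod.ext
      ((hw _ hx.2.1.2.1 hx.2.2.2.1).trans (hw _ hy.2.1.2.1 hy.2.2.2.1).symm) hxy)) with h1 | h1
  · exact Or.inl fun x hx => (h1 hx).2
  · exact Or.inr fun x hx => (h1 hx).2

def conn : List (List V) → Bool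
  | [] => false
  | [s] => !s.isEmpty
  | s :: t :: T => (s.any fun v => cov1 [v] (t :: T)) && conn (t :: T)

theorem conn_spec : ∀ T : List (List V), conn T = true → IsConnected (real T)
  | [], h => by simp [conn] at h
  | [s], h => by
    have e : real [s] = spx s := by ext x; simp [real]
    cases s with
    | nil => simp [conn] at h
    | cons v l => exact e ▸ (spx_convex _).isConnected ⟨_, ev_mem List.mem_cons_self⟩
  | s :: t :: T, h => by
    simp only [conn, Bool.and_eq_true, List.any_eq_true] at h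
    obtain ⟨⟨v, hv, h1⟩, h2⟩ := h
    have e : real (s :: t :: T) = spx s ∪ real (t :: T) := by ext x; simp [real]
    rw [e]
    exact IsConnected.union ⟨ev v, ev_mem hv, cov1_spec h1 (ev_mem List.mem_cons_self)⟩
      ((spx_convex _).isConnected ⟨_, ev_mem hv⟩) (conn_spec _ h2)

end Pool.Agent.Lib.MP_e11f15_gt
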