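import Pool.Agent.Lib.MP_e11f15_gt.Cx

open Set Real

set_option linter.unusedSectionVars false

namespace Pool.Agent.Lib.MP_e11f15_gt

variable {V : Type} [Fintype V] [DecidableEq V]

noncomputable def dl (F : (V → ℝ) → Angle) (e : V × V) : ℝ := inc F (ev e.1) (ev e.2)

def ted (t : V × V × V) : List (V × V) := [(t.1, t.2.1), (t.2.1, t.2.2), (t.2.2, t.1)]

theorem seg_sub {s : List V} {u v : V} (hu : u ∈ s) (hv : v ∈ s) :
    segment ℝ (ev u) (ev v) ⊆ spx s := (spx_convex s).segment_subset (ev_mem hu) (ev_mem hv)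

theorem ted_mem {t : V × V × V} {e : V × V} (he : e ∈ ted t) : e.1 ∈ tl t ∧ e.2 ∈ tl t := by
  simp only [ted, List.mem_cons, List.not_mem_nil, or_false] at he
  rcases he with rfl | rfl | rfl <;> simp [tl]

theorem dl_tri {F : (V → ℝ) → Angle} {t : V × V × V} (h : ContinuousOn F (spx (tl t))) :
    ((ted t).map (dl F)).sum = 0 := by
  have := inc_tri (spx_convex _) h (ev_mem (v := t.1) (by simp [tl]))
    (ev_mem (v := t.2.1) (by simp [tl])) (ev_mem (v := t.2.2) (by simp [tl]))
  simp only [ted, dl, List.map_cons, List.map_nil, List.sum_cons, List.sum_nil]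
  linarith

theorem dl_tris {F : (V → ℝ) → Angle} {rest : List (V × V × V)}
    (hFt : ∀ t ∈ rest, ContinuousOn F (spx (tl t))) :
    ((rest.flatMap ted).map (dl F)).sum = 0 := by
  induction rest with
  | nil => simp
  | cons t l ih =>
    rw [List.flatMap_cons, List.map_append, List.sum_append, dl_tri (hFt t List.mem_cons_self),
      ih fun t ht => hFt t (List.mem_cons_of_mem _ ht), add_zero]

theorem sum_balanced {L : List (V × V)} (hL : L.Perm (L.map Prod.swap)) {δ : V × V → ℝ}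
    (h : ∀ e ∈ L, δ e.swap = -δ e) : (L.map δ).sum = 0 := by
  have h1 : (L.map δ).sum = ((L.map Prod.swap).map δ).sum := (hL.map δ).sum_eq
  rw [List.map_map] at h1
  have h2 : (L.map (δ ∘ Prod.swap)).sum = -(L.map δ).sum := by
    clear hL h1
    induction L with
    | nil => simp
    | cons e l ih =>
      simp only [List.map_cons, List.sum_cons, Function.comp_apply]
      rw [h e List.mem_cons_self, ih fun e he => h e (List.mem_cons_of_mem _ he)]
      ring
  linarith

def ins (s : List V) : Set (V → ℝ) := {x | x ∈ spx s ∧ ∀ v ∈ s, 0 < x v}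

theorem sum_spx {s : List V} (hs : s.Nodup) {x : V → ℝ} (hx : x ∈ spx s) :
    (s.map x).sum = 1 := by
  rw [← List.sum_toFinset _ hs, ← hx.1.2]
  exact Finset.sum_subset (Finset.subset_univ _) fun v _ hv => hx.2 v (by simpa using hv)

theorem pt_mem {a b c : V} (h : [a, b, c].Nodup) {α β γ : ℝ} (hα : 0 < α) (hβ : 0 < β)
    (hγ : 0 < γ) (hs : α + β + γ = 1) : α • ev a + β • ev b + γ • ev c ∈ ins [a, b, c] := by
  simp only [List.nodup_cons, List.mem_cons, List.not_mem_nil, or_false, not_or] at h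
  obtain ⟨⟨hab, hac⟩, hbc, -⟩ := h
  refine ⟨⟨⟨fun v => ?_, ?_⟩, fun v hv => ?_⟩, fun v hv => ?_⟩
  · simp only [Pi.add_apply, Pi.smul_apply, Pi.single_apply, smul_eq_mul]
    split_ifs <;> positivity
  · simp [Finset.sum_add_distrib, Pi.single_apply, hs]
  · simp only [List.mem_cons, List.not_mem_nil, or_false, not_or] at hv
    simp [hv.1, hv.2.1, hv.2.2]
  · simp only [List.mem_cons, List.not_mem_nil, or_false] at hv
    rcases hv with rfl | rfl | rfl <;>
      simp [hab, hac, hbc, Ne.symm hab, Ne.symm hac, Ne.symm hbc, hα, hβ, hγ]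

theorem ins_convex (s : List V) : Convex ℝ (ins s) := by
  intro x hx y hy a b ha hb hab
  refine ⟨spx_convex s hx.1 hy.1 ha hb hab, fun v hv => ?_⟩
  have h1 := hx.2 v hv
  have h2 := hy.2 v hv
  simp only [Pi.add_apply, Pi.smul_apply, smul_eq_mul]
  rcases ha.eq_or_lt with h | h
  · subst h; rw [zero_add] at hab; subst hab; simpa using h2
  · positivity

theorem spx_sub_of_ins {a b c : V} (h : [a, b, c].Nodup) {X : Set (V → ℝ)} (hX : IsClosed X)
    (hi : ins [a, b, c] ⊆ X) : spx [a, b, c] ⊆ X := by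
  intro x hx
  have hm := pt_mem h (α := 1 / 3) (β := 1 / 3) (γ := 1 / 3) (by norm_num) (by norm_num)
    (by norm_num) (by norm_num)
  set m := (1 / 3 : ℝ) • ev a + (1 / 3 : ℝ) • ev b + (1 / 3 : ℝ) • ev c
  have : openSegment ℝ x m ⊆ X := by
    rintro _ ⟨s, t, hs, ht, hst, rfl⟩
    refine hi ⟨spx_convex _ hx hm.1 hs.le ht.le hst, fun v hv => ?_⟩
    have h1 := hx.1.1 v
    have h2 := hm.2 v hv
    simp only [Pi.add_apply, Pi.smul_apply, smul_eq_mul]
    positivity
  exact hX.closure_subset_iff.2 this (segment_subset_closure_openSegment (left_mem_segment _ _ _))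

theorem not_inj_ins {a b c : V} (h : [a, b, c].Nodup) {φ : (V → ℝ) → ℝ}
    (hc : ContinuousOn φ (ins [a, b, c])) (hi : InjOn φ (ins [a, b, c])) : False := by
  have key : ∀ u v w : V → ℝ, u ∈ ins [a, b, c] → v ∈ ins [a, b, c] → w ∈ ins [a, b, c] →
      ∀ k, u k = 1 / 4 → w k = 1 / 4 → v k = 1 / 2 → φ u ≤ φ v → φ v ≤ φ w → False := by
    intro u v w hu hv hw k h1 h2 h3 h4 h5
    have hs := (ins_convex _).segment_subset hu hw
    obtain ⟨y, hy, hyv⟩ := (convex_segment u w).isPreconnected.intermediate_value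
      (left_mem_segment _ _ _) (right_mem_segment _ _ _) (hc.mono hs) ⟨h4, h5⟩
    have := hi (hs hy) hv hyv
    subst this
    obtain ⟨s, t, -, -, hst, rfl⟩ := hy
    simp only [Pi.add_apply, Pi.smul_apply, smul_eq_mul, h1, h2] at h3
    linarith
  have h1 := pt_mem h (α := 1 / 2) (β := 1 / 4) (γ := 1 / 4) (by norm_num) (by norm_num)
    (by norm_num) (by norm_num)
  have h2 := pt_mem h (α := 1 / 4) (β := 1 / 2) (γ := 1 / 4) (by norm_num) (by norm_num)
    (by norm_num) (by norm_num)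
  have h3 := pt_mem h (α := 1 / 4) (β := 1 / 4) (γ := 1 / 2) (by norm_num) (by norm_num)
    (by norm_num) (by norm_num)
  simp only [List.nodup_cons, List.mem_cons, List.not_mem_nil, or_false, not_or] at h
  obtain ⟨⟨hab, hac⟩, hbc, -⟩ := h
  set p := (1 / 2 : ℝ) • ev a + (1 / 4 : ℝ) • ev b + (1 / 4 : ℝ) • ev c with hp
  set q := (1 / 4 : ℝ) • ev a + (1 / 2 : ℝ) • ev b + (1 / 4 : ℝ) • ev c with hq
  set r := (1 / 4 : ℝ) • ev a + (1 / 4 : ℝ) • ev b + (1 / 2 : ℝ) • ev c with hr
  have pa : p a = 1 / 2 := by simp [hp, hab, hac]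
  have pb : p b = 1 / 4 := by simp [hp, Ne.symm hab, hbc]
  have pc : p c = 1 / 4 := by simp [hp, Ne.symm hac, Ne.symm hbc]
  have qa : q a = 1 / 4 := by simp [hq, hab, hac]
  have qb : q b = 1 / 2 := by simp [hq, Ne.symm hab, hbc]
  have qc : q c = 1 / 4 := by simp [hq, Ne.symm hac, Ne.symm hbc]
  have ra : r a = 1 / 4 := by simp [hr, hab, hac]
  have rb : r b = 1 / 4 := by simp [hr, Ne.symm hab, hbc]
  have rc : r c = 1 / 2 := by simp [hr, Ne.symm hac, Ne.symm hbc]
  rcases le_total (φ p) (φ q) with h4 | h4 <;> rcases le_total (φ q) (φ r) with h5 | h5 <;>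
    rcases le_total (φ p) (φ r) with h6 | h6
  · exact key p q r h1 h2 h3 b pb rb qb h4 h5
  · exact key p q r h1 h2 h3 b pb rb qb h4 h5
  · exact key p r q h1 h3 h2 c pc qc rc h6 h5
  · exact key r p q h3 h1 h2 a ra qa pa h6 h4
  · exact key q p r h2 h1 h3 a qa ra pa h4 h6
  · exact key q r p h2 h3 h1 c qc pc rc h5 h6
  · exact key r q p h3 h2 h1 b rb pb qb h5 h4
  · exact key r q p h3 h2 h1 b rb pb qb h5 h4

noncomputable def zc (a b c d : V) : (V → ℝ) →L[ℝ] ℂ :=
  Complex.ofRealCLM.comp ((ContinuousLinearMap.proj b : (V → ℝ) →L[ℝ] ℝ) -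
    ContinuousLinearMap.proj a) +
  (((ContinuousLinearMap.proj c : (V → ℝ) →L[ℝ] ℝ) -
    ContinuousLinearMap.proj d).smulRight Complex.I)

theorem zc_re (a b c d : V) (x : V → ℝ) : (zc a b c d x).re = x b - x a := by simp [zc]
theorem zc_im (a b c d : V) (x : V → ℝ) : (zc a b c d x).im = x c - x d := by simp [zc]

theorem slit {z p q : ℂ} (hz : |z.re| + |z.im| = 1) (hp : |p.re| + |p.im| < 1)
    (hq : |q.re| + |q.im| < 1) : (z - p) / (z - q) ∈ Complex.slitPlane := by
  have hzq : z - q ≠ 0 := by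
    intro h; rw [sub_eq_zero] at h; rw [h] at hz; linarith
  by_contra hcon
  rw [Complex.mem_slitPlane_iff, not_or, not_lt, not_not] at hcon
  set t := ((z - p) / (z - q)).re with ht
  have h1 : (z - p) / (z - q) = t := Complex.ext (by simp [ht]) (by simp [hcon.2])
  rw [div_eq_iff hzq] at h1
  have h2 := congrArg Complex.re h1
  have h3 := congrArg Complex.im h1
  simp only [Complex.sub_re, Complex.mul_re, Complex.ofReal_re, Complex.ofReal_im, zero_mul,
    sub_zero, Complex.sub_im, Complex.mul_im, add_zero] at h2 h3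
  have h4 : (1 - t) * z.re = p.re + (-t) * q.re := by linarith
  have h5 : (1 - t) * z.im = p.im + (-t) * q.im := by linarith
  have h6 := abs_add_le p.re ((-t) * q.re)
  have h7 := abs_add_le p.im ((-t) * q.im)
  have ht0 : 0 ≤ -t := by linarith [hcon.1]
  rw [← h4, abs_mul, abs_mul, abs_of_nonneg ht0, abs_of_nonneg (by linarith)] at h6
  rw [← h5, abs_mul, abs_mul, abs_of_nonneg ht0, abs_of_nonneg (by linarith)] at h7
  nlinarith

theorem diamond {T rest : List (V × V × V)} {a b c d : V} (hnd : [a, b, c, d].Nodup)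
    (hT : real (T.map tl) = real ([a, b, c] :: [a, b, d] :: rest.map tl))
    (hrest : ∀ t ∈ rest, ¬ (a ∈ tl t ∧ b ∈ tl t))
    (hbal : (rest.flatMap ted ++ [(b, c), (c, a), (a, d), (d, b)]).Perm
      ((rest.flatMap ted ++ [(b, c), (c, a), (a, d), (d, b)]).map Prod.swap))
    {X1 X2 : Set (V → ℝ)} (h1 : IsClosed X1) (h2 : IsClosed X2) (hcov : real (T.map tl) ⊆ X1 ∪ X2)
    {φ : (V → ℝ) → ℝ} (hφ : ContinuousOn φ (real (T.map tl)))
    (hinj : InjOn φ (real (T.map tl) ∩ (X1 ∩ X2)))
    {p q : V → ℝ} (hp : p ∈ ins [a, b, c] ∪ ins [a, b, d]) (hq : q ∈ ins [a, b, c] ∪ ins [a, b, d])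
    (hp2 : p ∉ X2) (hq1 : q ∉ X1) : False := by
  classical
  have hnd' := hnd
  simp only [List.nodup_cons, List.mem_cons, List.not_mem_nil, or_false, not_or] at hnd'
  obtain ⟨⟨hab, hac, had⟩, ⟨hbc, hbd⟩, hcd, -⟩ := hnd'
  have hn1 : [a, b, c].Nodup := by simp [hab, hac, hbc]
  have hn2 : [a, b, d].Nodup := by simp [hab, had, hbd]
  set S := spx [a, b, c] ∪ spx [a, b, d] with hS
  set R := real (rest.map tl) with hR
  set Y := real (T.map tl) with hY
  have hYSR : Y = S ∪ R := by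
    rw [hT]; ext x; simp [real, hS, hR, or_assoc]
  have hSc : IsClosed S := (spx_closed _).union (spx_closed _)
  have hRc : IsClosed R := (real_compact _).isClosed
  set z := zc a b c d with hz
  have hco : ∀ x ∈ S, 0 ≤ x a ∧ 0 ≤ x b ∧ 0 ≤ x c ∧ 0 ≤ x d ∧ (x c = 0 ∨ x d = 0) ∧
      x a + x b + x c + x d = 1 ∧ ∀ v, v ≠ a → v ≠ b → v ≠ c → v ≠ d → x v = 0 := by
    rintro x (hx | hx)
    · have h3 := sum_spx hn1 hx
      have h4 := hx.2 d (by simp [Ne.symm had, Ne.symm hbd, Ne.symm hcd])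
      simp only [List.map_cons, List.map_nil, List.sum_cons, List.sum_nil] at h3
      exact ⟨hx.1.1 a, hx.1.1 b, hx.1.1 c, hx.1.1 d, Or.inr h4, by linarith,
        fun v h5 h6 h7 _ => hx.2 v (by simp [h5, h6, h7])⟩
    · have h3 := sum_spx hn2 hx
      have h4 := hx.2 c (by simp [Ne.symm hac, Ne.symm hbc, hcd])
      simp only [List.map_cons, List.map_nil, List.sum_cons, List.sum_nil] at h3
      exact ⟨hx.1.1 a, hx.1.1 b, hx.1.1 c, hx.1.1 d, Or.inl h4, by linarith,
        fun v h5 h6 _ h7 => hx.2 v (by simp [h5, h6, h7])⟩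
  have hzinj : InjOn z S := by
    intro x hx y hy hxy
    obtain ⟨x1, x2, x3, x4, x5, x6, x7⟩ := hco x hx
    obtain ⟨y1, y2, y3, y4, y5, y6, y7⟩ := hco y hy
    have e1 := congrArg Complex.re hxy
    have e2 := congrArg Complex.im hxy
    simp only [hz, zc_re, zc_im] at e1 e2
    have e3 : x c = y c ∧ x d = y d := by
      rcases x5 with h | h <;> rcases y5 with h' | h' <;> constructor <;> linarith
    ext v
    by_cases va : v = a
    · subst va; linarith [e3.1, e3.2]
    by_cases vb : v = b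
    · subst vb; linarith [e3.1, e3.2]
    by_cases vc : v = c
    · subst vc; exact e3.1
    by_cases vd : v = d
    · subst vd; exact e3.2
    rw [x7 v va vb vc vd, y7 v va vb vc vd]
  have habs : ∀ x ∈ S, |(z x).im| = x c + x d := by
    intro x hx
    obtain ⟨x1, x2, x3, x4, x5, x6, x7⟩ := hco x hx
    rw [hz, zc_im]
    rcases x5 with h | h <;> simp [h, x3, x4]
  have hins : ∀ x ∈ ins [a, b, c] ∪ ins [a, b, d],
      x ∈ S ∧ 0 < x a ∧ 0 < x b ∧ |(z x).re| + |(z x).im| < 1 := by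
    intro x hx
    have h3 : x ∈ S ∧ 0 < x a ∧ 0 < x b := by
      rcases hx with hx | hx
      · exact ⟨Or.inl hx.1, hx.2 a (by simp), hx.2 b (by simp)⟩
      · exact ⟨Or.inr hx.1, hx.2 a (by simp), hx.2 b (by simp)⟩
    refine ⟨h3.1, h3.2.1, h3.2.2, ?_⟩
    obtain ⟨x1, x2, x3, x4, x5, x6, x7⟩ := hco x h3.1
    rw [habs x h3.1, hz, zc_re]
    have : |x b - x a| < x a + x b := by rw [abs_lt]; constructor <;> linarith [h3.2.1, h3.2.2]
    linarith
  set Bd : Set (V → ℝ) := S ∩ ({x | x a = 0} ∪ {x | x b = 0}) with hBd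
  have hBdc : IsClosed Bd := hSc.inter
    ((isClosed_eq (continuous_apply a) continuous_const).union
      (isClosed_eq (continuous_apply b) continuous_const))
  have hBd1 : ∀ x ∈ Bd, |(z x).re| + |(z x).im| = 1 := by
    rintro x ⟨hx, hx'⟩
    obtain ⟨x1, x2, x3, x4, x5, x6, x7⟩ := hco x hx
    rw [habs x hx, hz, zc_re]
    rcases hx' with h | h
    · have h : x a = 0 := h
      rw [h, sub_zero, abs_of_nonneg x2]; linarith
    · have h : x b = 0 := h
      rw [h, zero_sub, abs_neg, abs_of_nonneg x1]; linarith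
  have hSR : ∀ x ∈ S, x ∈ R → x ∈ Bd := by
    rintro x hx ⟨s, hs, hxs⟩
    obtain ⟨t, ht, rfl⟩ := List.mem_map.1 hs
    refine ⟨hx, ?_⟩
    by_cases h : a ∈ tl t
    · exact Or.inr (hxs.2 b fun h' => hrest t ht ⟨h, h'⟩)
    · exact Or.inl (hxs.2 a h)
  obtain ⟨hpS, -, -, hpn⟩ := hins p hp
  obtain ⟨hqS, -, -, hqn⟩ := hins q hq
  have hslit : ∀ x ∈ Bd, (z x - z p) / (z x - z q) ∈ Complex.slitPlane :=
    fun x hx => slit (hBd1 x hx) hpn hqn
  have hneB : ∀ x ∈ Bd, z x - z p ≠ 0 ∧ z x - z q ≠ 0 := by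
    intro x hx
    have := hBd1 x hx
    constructor <;> intro h <;> rw [sub_eq_zero] at h <;> rw [h] at this <;> linarith
  have hne : ∀ r ∈ S, ∀ x ∈ S, x ≠ r → z x - z r ≠ 0 :=
    fun r hr x hx hxr h => hxr (hzinj hx hr (sub_eq_zero.1 h))
  obtain ⟨H, hH, hHB⟩ := tietze hBdc (g := fun x => Complex.arg ((z x - z p) / (z x - z q)))
    fun x hx => ((Complex.continuousAt_arg (hslit x hx)).comp
      (f := fun x => (z x - z p) / (z x - z q))
      (ContinuousAt.div (by fun_prop) (by fun_prop) (hneB x hx).2)).continuousWithinAt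
  let ar : (V → ℝ) → (V → ℝ) → Angle := fun r x => (Complex.arg (z x - z r) : Angle)
  have har : ∀ r x, z x - z r ≠ 0 → ContinuousAt (ar r) x := fun r x h =>
    (Complex.continuousAt_arg_coe_angle h).comp (f := fun x => z x - z r) (by fun_prop)
  have hHc : Continuous fun x => (H x : Angle) := Angle.continuous_coe.comp hH
  let g : (V → ℝ) → Angle := fun x => if x ∈ S then ar p x - ar q x - H x else 0
  have hgR : ∀ x ∈ R, g x = 0 := by
    intro x hx
    by_cases hxS : x ∈ S
    · have hB := hSR x hxS hx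
      simp only [g, hxS, if_true, ar]
      rw [hHB hB, Complex.arg_div_coe_angle (hneB x hB).1 (hneB x hB).2, sub_self]
    · simp [g, hxS]
  set A := Y ∩ (X1 ∩ X2) with hA
  have hAc : IsCompact A := (real_compact _).inter_right (h1.inter h2)
  have hgA : ContinuousOn g A := by
    have e : A = (A ∩ S) ∪ (A ∩ R) := by
      rw [← inter_union_distrib_left, ← hYSR]
      exact (inter_eq_left.2 inter_subset_left).symm
    rw [e]
    refine ContinuousOn.union_of_isClosed ?_ (continuousOn_const.congr fun x hx => hgR x hx.2)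
      (hAc.isClosed.inter hSc) (hAc.isClosed.inter hRc)
    refine ContinuousOn.congr (f := fun x => ar p x - ar q x - H x) (fun x hx => ?_)
      fun x hx => by simp [g, hx.2]
    exact (((har p x (hne p hpS x hx.2 fun h => hp2 (h ▸ hx.1.2.2))).sub
      (har q x (hne q hqS x hx.2 fun h => hq1 (h ▸ hx.1.2.1)))).sub
        hHc.continuousAt).continuousWithinAt
  have hφA : ContinuousOn φ A := hφ.mono inter_subset_left
  obtain ⟨G, hG⟩ := exists_lift_real (hAc.image_of_continuousOn hφA).isClosed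
    (hgA.comp (contOn_invFunOn hAc hφA hinj) fun y hy => Function.invFunOn_mem hy)
  have hG2 : Lifts (G ∘ φ) g A := (hG.comp hφA (mapsTo_image φ A)).congr fun x hx => by
    simp only [Function.comp_apply]
    rw [hinj.leftInvOn_invFunOn hx]
  obtain ⟨h, hh, hhA⟩ := tietze hAc.isClosed hG2.1
  have hhg : ∀ x ∈ A, (h x : Angle) = g x := fun x hx => by rw [hhA hx]; exact hG2.2 x hx
  have hhc : Continuous fun x => (h x : Angle) := Angle.continuous_coe.comp hh
  let F : (V → ℝ) → Angle := fun x => if x ∈ X1 then h x else g x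
  have hF1 : ∀ x ∈ X1, F x = h x := fun x hx => by simp [F, hx]
  have hF2 : ∀ x ∈ Y, x ∈ X2 → F x = g x := fun x hx hx2 => by
    by_cases hx1 : x ∈ X1
    · rw [hF1 x hx1, hhg x ⟨hx, hx1, hx2⟩]
    · simp [F, hx1]
  have hsplit : ∀ {W : Set (V → ℝ)}, W ⊆ Y → W = (W ∩ X1) ∪ (W ∩ X2) := fun hW => by
    rw [← inter_union_distrib_left]
    exact (inter_eq_left.2 (hW.trans hcov)).symm
  have hRY : R ⊆ Y := hYSR ▸ subset_union_right
  have hSY : S ⊆ Y := hYSR ▸ subset_union_left
  have hFR : ContinuousOn F R := by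
    rw [hsplit hRY]
    exact (hhc.continuousOn.congr fun x hx => hF1 x hx.2).union_of_isClosed
      (continuousOn_const.congr fun x hx => (hF2 x (hRY hx.1) hx.2).trans (hgR x hx.1))
      (hRc.inter h1) (hRc.inter h2)
  have hΦ : ContinuousOn (fun x => F x + ar q x) S := by
    rw [hsplit hSY]
    refine ContinuousOn.union_of_isClosed ?_ ?_ (hSc.inter h1) (hSc.inter h2)
    · refine ContinuousOn.congr (f := fun x => (h x : Angle) + ar q x) (fun x hx => ?_)
        fun x hx => by simp only [hF1 x hx.2]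
      exact (hhc.continuousAt.add
        (har q x (hne q hqS x hx.1 fun h => hq1 (h ▸ hx.2)))).continuousWithinAt
    · refine ContinuousOn.congr (f := fun x => ar p x - H x) (fun x hx => ?_) fun x hx => ?_
      · exact ((har p x (hne p hpS x hx.1 fun h => hp2 (h ▸ hx.2))).sub
          hHc.continuousAt).continuousWithinAt
      · simp only [hF2 x (hSY hx.1) hx.2, g, hx.1, if_true]
        abel
  have hqB : ContinuousOn (ar q) Bd := fun x hx => (har q x (hneB x hx).2).continuousWithinAt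
  have hFB : ContinuousOn F Bd := by
    refine ((hΦ.mono inter_subset_left).sub hqB).congr fun x _ => ?_
    simp
  have hsegB : ∀ e ∈ [(b, c), (c, a), (a, d), (d, b)], segment ℝ (ev e.1) (ev e.2) ⊆ Bd := by
    intro e he x hx
    have hx2 := seg_sub (s := [e.1, e.2]) (by simp) (by simp) hx
    simp only [List.mem_cons, List.not_mem_nil, or_false] at he
    rcases he with rfl | rfl | rfl | rfl
    · exact ⟨Or.inl (spx_mono (by simp) hx2), Or.inl (hx2.2 a (by simp [hab, hac]))⟩
    · exact ⟨Or.inl (spx_mono (by simp) hx2), Or.inr (hx2.2 b (by simp [Ne.symm hab, hbc]))⟩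
    · exact ⟨Or.inr (spx_mono (by simp) hx2), Or.inr (hx2.2 b (by simp [Ne.symm hab, hbd]))⟩
    · exact ⟨Or.inr (spx_mono (by simp) hx2), Or.inl (hx2.2 a (by simp [hab, had]))⟩
  have hFt : ∀ t ∈ rest, ContinuousOn F (spx (tl t)) := fun t ht =>
    hFR.mono (spx_subset_real (List.mem_map_of_mem ht))
  have s1 := sum_balanced hbal (δ := dl F) fun e he => by
    refine inc_swap ?_
    rcases List.mem_append.1 he with he | he
    · obtain ⟨t, ht, he⟩ := List.mem_flatMap.1 he
      exact (hFt t ht).mono (seg_sub (ted_mem he).1 (ted_mem he).2)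
    · exact hFB.mono (hsegB e he)
  have s2 := dl_tris hFt
  rw [List.map_append, List.sum_append, s2] at s1
  have t1 := dl_tri (t := (a, b, c)) (hΦ.mono subset_union_left)
  have t2 := dl_tri (t := (b, a, d)) (hΦ.mono ((spx_mono (by simp [tl])).trans subset_union_right))
  have t3 := inc_swap (hΦ.mono ((seg_sub (s := [a, b, c]) (u := a) (v := b) (by simp)
    (by simp)).trans subset_union_left))
  have t4 : ∀ e ∈ [(b, c), (c, a), (a, d), (d, b)],
      dl (fun x => F x + ar q x) e = dl F e + dl (ar q) e := fun e he =>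
    inc_add (hFB.mono (hsegB e he)) (hqB.mono (hsegB e he))
  have u1 := t4 (b, c) (by simp)
  have u2 := t4 (c, a) (by simp)
  have u3 := t4 (a, d) (by simp)
  have u4 := t4 (d, b) (by simp)
  have hq' := hqn
  have q1 := abs_le.1 (le_refl |(z q).re|)
  have q2 := abs_le.1 (le_refl |(z q).im|)
  have za : z (ev a) = -1 := Complex.ext (by simp [hz, zc_re, Ne.symm hab])
    (by simp [hz, zc_im, Ne.symm hac, Ne.symm had])
  have zb : z (ev b) = 1 := Complex.ext (by simp [hz, zc_re, hab])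
    (by simp [hz, zc_im, Ne.symm hbc, Ne.symm hbd])
  have zc' : z (ev c) = Complex.I := Complex.ext (by simp [hz, zc_re, hac, hbc])
    (by simp [hz, zc_im, Ne.symm hcd])
  have zd : z (ev d) = -Complex.I := Complex.ext (by simp [hz, zc_re, had, hbd])
    (by simp [hz, zc_im, hcd])
  have v1 : 0 < dl (ar q) (b, c) := inc_arg_pos z (z q) (by simp [zb, zc']; nlinarith)
  have v2 : 0 < dl (ar q) (c, a) := inc_arg_pos z (z q) (by simp [za, zc']; nlinarith)
  have v3 : 0 < dl (ar q) (a, d) := inc_arg_pos z (z q) (by simp [za, zd]; nlinarith)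
  have v4 : 0 < dl (ar q) (d, b) := inc_arg_pos z (z q) (by simp [zb, zd]; nlinarith)
  simp only [ted, List.map_cons, List.map_nil, List.sum_cons, List.sum_nil] at s1 t1 t2
  have t3' : dl (fun x => F x + ar q x) (b, a) = -dl (fun x => F x + ar q x) (a, b) := t3
  linarith

def okd (T : List (V × V × V)) (a b c d : V) : Bool :=
  let rest := T.filter fun t => !((tl t).contains a && (tl t).contains b)
  decide [a, b, c, d].Nodup && dom (T.map tl) ([a, b, c] :: [a, b, d] :: rest.map tl) &&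
    dom ([a, b, c] :: [a, b, d] :: rest.map tl) (T.map tl) &&
    (rest.flatMap ted ++ [(b, c), (c, a), (a, d), (d, b)]).isPerm
      ((rest.flatMap ted ++ [(b, c), (c, a), (a, d), (d, b)]).map Prod.swap)

def seq (s t : List V) : Bool := sub s t && sub t s

def chkr (T : List (V × V × V)) : List (List V) → List (V × V × V × V) → Bool
  | R, [] => T.all fun t => decide (tl t).Nodup && R.any fun s => seq s (tl t)
  | R, (a, b, c, d) :: ds => okd T a b c d && (R.any fun s => seq s [a, b, c]) &&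
      chkr T ([a, b, d] :: R) ds

theorem ins_seq {s t : List V} (h : seq s t = true) : ins s = ins t := by
  simp only [seq, Bool.and_eq_true, sub_iff] at h
  ext x
  exact ⟨fun hx => ⟨spx_mono h.1 hx.1, fun v hv => hx.2 v (h.2 v hv)⟩,
    fun hx => ⟨spx_mono h.2 hx.1, fun v hv => hx.2 v (h.1 v hv)⟩⟩

theorem okd_spec {T : List (V × V × V)} {a b c d : V} (h : okd T a b c d = true)
    {X1 X2 : Set (V → ℝ)} (h1 : IsClosed X1) (h2 : IsClosed X2) (hcov : real (T.map tl) ⊆ X1 ∪ X2)
    {φ : (V → ℝ) → ℝ} (hφ : ContinuousOn φ (real (T.map tl)))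
    (hinj : InjOn φ (real (T.map tl) ∩ (X1 ∩ X2))) :
    ¬ (ins [a, b, c] ⊆ X1 ∧ ins [a, b, c] ⊆ X2) ∧
    ((ins [a, b, c] ⊆ X1 ∧ ins [a, b, d] ⊆ X1) ∨ (ins [a, b, c] ⊆ X2 ∧ ins [a, b, d] ⊆ X2)) := by
  simp only [okd, Bool.and_eq_true, decide_eq_true_eq, List.isPerm_iff] at h
  obtain ⟨⟨⟨hnd, hd1⟩, hd2⟩, hperm⟩ := h
  constructor
  · rintro ⟨h3, h4⟩
    have h5 : ins [a, b, c] ⊆ real (T.map tl) := fun x hx =>
      dom_spec hd2 (spx_subset_real List.mem_cons_self hx.1)
    exact not_inj_ins (hnd.sublist (by simp)) (hφ.mono h5)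
      (hinj.mono fun x hx => mem_inter (h5 hx) (mem_inter (h3 hx) (h4 hx)))
  · by_contra hcon
    rw [← union_subset_iff, ← union_subset_iff, not_or, not_subset, not_subset] at hcon
    obtain ⟨⟨q, hq, hq1⟩, p, hp, hp2⟩ := hcon
    refine diamond hnd (Subset.antisymm (dom_spec hd1) (dom_spec hd2)) (fun t ht => ?_) hperm
      h1 h2 hcov hφ hinj hp hq hp2 hq1
    have := (List.mem_filter.1 ht).2
    rw [not_and_or]
    simpa using this

theorem chkr_spec {T : List (V × V × V)}
    {X1 X2 : Set (V → ℝ)} (h1 : IsClosed X1) (h2 : IsClosed X2) (hcov : real (T.map tl) ⊆ X1 ∪ X2)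
    {φ : (V → ℝ) → ℝ} (hφ : ContinuousOn φ (real (T.map tl)))
    (hinj : InjOn φ (real (T.map tl) ∩ (X1 ∩ X2))) (ds : List (V × V × V × V)) :
    ∀ R, chkr T R ds = true → (∀ s ∈ R, ins s ⊆ X1) → real (T.map tl) ⊆ X1 := by
  induction ds with
  | nil =>
    rintro R h hR x ⟨s, hs, hx⟩
    obtain ⟨t, ht, rfl⟩ := List.mem_map.1 hs
    have := List.all_eq_true.1 h t ht
    simp only [Bool.and_eq_true, decide_eq_true_eq, List.any_eq_true] at this
    obtain ⟨hnd, s, hs, he⟩ := this
    exact spx_sub_of_ins hnd h1 ((ins_seq he).symm.subset.trans (hR s hs)) hx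
  | cons m ds ih =>
    obtain ⟨a, b, c, d⟩ := m
    intro R h hR
    simp only [chkr, Bool.and_eq_true, List.any_eq_true] at h
    obtain ⟨⟨h3, s, hs, he⟩, h4⟩ := h
    refine ih _ h4 fun s' hs' => ?_
    rcases List.mem_cons.1 hs' with rfl | hs'
    · have h5 : ins [a, b, c] ⊆ X1 := (ins_seq he).symm.subset.trans (hR s hs)
      obtain ⟨h6, h7 | h7⟩ := okd_spec h3 h1 h2 hcov hφ hinj
      · exact h7.2
      · exact absurd ⟨h5, h7.1⟩ h6
    · exact hR s' hs'

theorem rigid {T : List (V × V × V)} {a b c d : V} {ds : List (V × V × V × V)}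
    (h : chkr T [[a, b, c]] ((a, b, c, d) :: ds) = true)
    {X1 X2 : Set (V → ℝ)} (h1 : IsClosed X1) (h2 : IsClosed X2) (hcov : real (T.map tl) ⊆ X1 ∪ X2)
    {φ : (V → ℝ) → ℝ} (hφ : ContinuousOn φ (real (T.map tl)))
    (hinj : InjOn φ (real (T.map tl) ∩ (X1 ∩ X2))) :
    real (T.map tl) ⊆ X1 ∨ real (T.map tl) ⊆ X2 := by
  have h3 : okd T a b c d = true := by
    simp only [chkr, Bool.and_eq_true] at h
    exact h.1.1
  rcases (okd_spec h3 h1 h2 hcov hφ hinj).2 with h4 | h4
  · exact Or.inl (chkr_spec h1 h2 hcov hφ hinj _ _ h (by simpa using h4.1))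
  · exact Or.inr (chkr_spec h2 h1 (union_comm X1 X2 ▸ hcov) hφ (inter_comm X1 X2 ▸ hinj) _ _ h
      (by simpa using h4.1))

end Pool.Agent.Lib.MP_e11f15_gt
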